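import Mathlib
import Pool.Agent.H921R2.TatePole.Dedekind

/-!
# Project BS (MP_666bea_ag): the Bloch–Soulé formula for arithmetic surfaces, statements of the modules
-/

set_option autoImplicit false

open NumberField IsDedekindDomain
open scoped Classical

namespace Pool.Agent.D0H69.BS

open Pool.Agent.H921R2.TatePole (nm)

/-- PIC: `R` a principal ideal domain with field of fractions `F`, `W` a Weierstrass curve over `R` with
`Δ ≠ 0`.  If the group of points over `F` is finite, so is the class group of the coordinate ring over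
`R`.  (No hypothesis on the reduction: the fibres are always integral.)  Proof: (1) every prime `π` of `R` is prime in
`A` (`A / π A` is the coordinate ring over the field `R / π`); (2) if `I` is an invertible fractional
ideal of `A` with `I A_F = A_F`, then `I` is principal: multiply by an element of `R`, then `I ⊆ A` and
`r ∈ I`, `r ≠ 0` in `R`; divide `I` by the primes `π ∣ r` with `I ⊆ π A`; then `I ⊄ π A` for all `π ∣ r`, and
for `a ∈ I⁻¹`: `r a ∈ A`, `(r a) I ⊆ r A ⊆ π A`, so `r a ∈ π A`, `(r / π) a ∈ A`, and so on: `a ∈ A`; (3) the class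
group of the coordinate ring over `F` is `W(F)` (`Pool.Agent.X261.BC.toClass_surj`). -/
def S_PIC : Prop := ∀ (R F : Type) [CommRing R] [IsDomain R] [IsPrincipalIdealRing R] [Field F]
  [Algebra R F] [IsFractionRing R F] (W : WeierstrassCurve R), W.Δ ≠ 0 →
  Finite (W.baseChange F).toAffine.Point →
  ∃ _ : IsDomain W.toAffine.CoordinateRing, Finite (ClassGroup W.toAffine.CoordinateRing)

/-- UN: the units of the coordinate ring are the units of `R` (library over fields:
`Pool.Agent.X261.BC.unit_const`) -/
def S_UN : Prop := ∀ (R : Type) [CommRing R] [IsDomain R] (W : WeierstrassCurve R),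
  Function.Bijective (Units.map (algebraMap R W.toAffine.CoordinateRing).toMonoidHom)

/-- RK: the rank of the group of the `N`-units -/
def S_RK : Prop := ∀ (K : Type) [Field K] [NumberField K] [IsPrincipalIdealRing (𝓞 K)] (N : 𝓞 K), N ≠ 0 →
  Module.finrank ℤ (Additive (Localization.Away N)ˣ) =
    Units.rank K + {v : HeightOneSpectrum (𝓞 K) | N ∈ v.asIdeal}.ncard

/-- ZK: the zeta function of an imaginary quadratic field -/
def S_ZK : Prop := ∀ (K : Type) [Field K] [NumberField K], Module.finrank ℚ K = 2 →
  ∀ (m : ℤ) (a : K), a ^ 2 = (m : K) → m < 0 →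
  ∃ Z : ℂ → ℂ, MeromorphicOn Z Set.univ ∧ (∀ s : ℂ, 1 < s.re →
    HasProd (fun v : HeightOneSpectrum (𝓞 K) => (1 - (nm v : ℂ) ^ (-s))⁻¹) (Z s)) ∧
    meromorphicOrderAt Z 1 = ((-1 : ℤ) : WithTop ℤ) ∧ meromorphicOrderAt Z 0 = 0 ∧
    ∀ s : ℂ, 1 < s.re → meromorphicOrderAt Z s = 0

end Pool.Agent.D0H69.BS
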