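import Pool.Agent.D0H69.BS.Ep
import Pool.Agent.Y696.Hss

/-!
# Project BS: the meromorphic continuation and the orders
-/

set_option autoImplicit false
set_option linter.unusedSectionVars false

open NumberField IsDedekindDomain CategoryTheory AlgebraicGeometry
open scoped Classical

namespace Pool.Agent.D0H69.BS

open Pool.Agent.W189.NF (aV eV)
open Pool.Agent.H921R2.TatePole (nm two_le_nm nm_summable)
open Pool.Agent.Y696 (HBd LSeries_hasProd')

section gen

variable {K : Type} [Field K] [NumberField K]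

lemma nm_pos (v : HeightOneSpectrum (𝓞 K)) : 0 < nm v := lt_of_lt_of_le two_pos (two_le_nm v)

lemma nmc_ne (v : HeightOneSpectrum (𝓞 K)) : (nm v : ℂ) ≠ 0 := by
  exact_mod_cast (nm_pos v).ne'

lemma norm_nms (v : HeightOneSpectrum (𝓞 K)) (s : ℂ) : ‖(nm v : ℂ) ^ (-s)‖ = (nm v : ℝ) ^ (-s.re) := by
  rw [Complex.norm_natCast_cpow_of_pos (nm_pos v), Complex.neg_re]

lemma norm_lt (v : HeightOneSpectrum (𝓞 K)) {s : ℂ} (hs : 0 < s.re) : ‖(nm v : ℂ) ^ (-s)‖ < 1 := by
  rw [norm_nms]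
  exact Real.rpow_lt_one_of_one_lt_of_neg (by exact_mod_cast two_le_nm v) (by linarith)

/-- the factor of the curve at a place -/
noncomputable def lf (E : WeierstrassCurve K) (s : ℂ) (v : HeightOneSpectrum (𝓞 K)) : ℂ :=
  1 - (aV E v : ℂ) * (nm v : ℂ) ^ (-s) + (eV E v : ℂ) * ((nm v : ℂ) ^ (-s)) ^ 2

lemma beta_norm {v : HeightOneSpectrum (𝓞 K)} {β : ℂ} (h : β * (starRingEnd ℂ) β = nm v) :
    ‖β‖ = (nm v : ℝ) ^ (1 / 2 : ℝ) := by
  have h1 : ‖β‖ ^ 2 = nm v := by
    rw [Complex.mul_conj, Complex.normSq_eq_norm_sq] at h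
    exact_mod_cast h
  rw [← h1, ← Real.sqrt_eq_rpow, Real.sqrt_sq (norm_nonneg _)]

lemma beta_small {v : HeightOneSpectrum (𝓞 K)} {β : ℂ} (h : β * (starRingEnd ℂ) β = nm v) {s : ℂ} :
    ‖β * (nm v : ℂ) ^ (-s)‖ = (nm v : ℝ) ^ (-(s.re - 1 / 2)) := by
  have h0 : (0 : ℝ) < nm v := by exact_mod_cast nm_pos v
  rw [norm_mul, beta_norm h, norm_nms, ← Real.rpow_add h0]
  congr 1
  ring

lemma one_sub_ne {z : ℂ} (hz : ‖z‖ < 1) : (1 : ℂ) - z ≠ 0 := by
  intro h
  rw [← sub_eq_zero.mp h, norm_one] at hz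
  exact lt_irrefl _ hz

lemma beta_lt {v : HeightOneSpectrum (𝓞 K)} {β : ℂ} (h : β * (starRingEnd ℂ) β = nm v) {s : ℂ}
    (hs : 1 / 2 < s.re) : ‖β * (nm v : ℂ) ^ (-s)‖ < 1 := by
  rw [beta_small h]
  exact Real.rpow_lt_one_of_one_lt_of_neg (by exact_mod_cast two_le_nm v) (by linarith)

lemma lf_split {E : WeierstrassCurve K} {v : HeightOneSpectrum (𝓞 K)} {β : ℂ}
    (h : β * (starRingEnd ℂ) β = nm v) (ha : (aV E v : ℂ) = β + (starRingEnd ℂ) β)
    (he : (eV E v : ℂ) = nm v) (s : ℂ) : lf E s v =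
      (1 - β * (nm v : ℂ) ^ (-s)) * (1 - (starRingEnd ℂ) β * (nm v : ℂ) ^ (-s)) := by
  unfold lf
  rw [ha, he]
  linear_combination (-((nm v : ℂ) ^ (-s)) ^ 2) * h

lemma conj_mul' {v : HeightOneSpectrum (𝓞 K)} {β : ℂ} (h : β * (starRingEnd ℂ) β = nm v) :
    (starRingEnd ℂ) β * (starRingEnd ℂ) ((starRingEnd ℂ) β) = nm v := by
  rw [Complex.conj_conj, mul_comm]
  exact h

/-- the data of the curve at all places -/
structure Loc (E : WeierstrassCurve K) (N : 𝓞 K) (β : HeightOneSpectrum (𝓞 K) → ℂ) : Prop where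
  nrm : ∀ v, N ∉ v.asIdeal → β v * (starRingEnd ℂ) (β v) = nm v
  aV : ∀ v, N ∉ v.asIdeal → (aV E v : ℂ) = β v + (starRingEnd ℂ) (β v)
  eV : ∀ v, N ∉ v.asIdeal → (eV E v : ℂ) = nm v
  bad : ∀ v, N ∈ v.asIdeal → Pool.Agent.W189.NF.aV E v = 0 ∧ Pool.Agent.W189.NF.eV E v = 0

variable {E : WeierstrassCurve K} {N : 𝓞 K} {β : HeightOneSpectrum (𝓞 K) → ℂ} (hL : Loc E N β)

include hL

lemma hbd (v : HeightOneSpectrum (𝓞 K)) : HBd (aV E v) (eV E v) (nm v) := by
  by_cases h : N ∈ v.asIdeal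
  · exact Or.inl (hL.bad v h)
  · refine Or.inr ⟨β v, hL.aV v h, ?_, hL.nrm v h⟩
    rw [hL.eV v h, hL.nrm v h]

lemma lf_ne {s : ℂ} (hs : 1 / 2 < s.re) (v : HeightOneSpectrum (𝓞 K)) : lf E s v ≠ 0 := by
  by_cases h : N ∈ v.asIdeal
  · unfold lf
    rw [(hL.bad v h).1, (hL.bad v h).2]
    simp
  · rw [lf_split (hL.nrm v h) (hL.aV v h) (hL.eV v h)]
    exact mul_ne_zero (one_sub_ne (beta_lt (hL.nrm v h) hs))
      (one_sub_ne (beta_lt (conj_mul' (hL.nrm v h)) hs))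

lemma lf_bound {s : ℂ} (hs : 3 / 2 < s.re) (v : HeightOneSpectrum (𝓞 K)) :
    ‖lf E s v - 1‖ ≤ 3 * (nm v : ℝ) ^ (-(s.re - 1 / 2)) := by
  by_cases h : N ∈ v.asIdeal
  · unfold lf
    rw [(hL.bad v h).1, (hL.bad v h).2]
    simp only [Int.cast_zero, zero_mul, sub_zero, add_zero, sub_self, norm_zero]
    positivity
  · rw [lf_split (hL.nrm v h) (hL.aV v h) (hL.eV v h)]
    set x := β v * (nm v : ℂ) ^ (-s) with hx
    set y := (starRingEnd ℂ) (β v) * (nm v : ℂ) ^ (-s) with hy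
    have h1 : ‖x‖ = (nm v : ℝ) ^ (-(s.re - 1 / 2)) := beta_small (hL.nrm v h)
    have h2 : ‖y‖ = (nm v : ℝ) ^ (-(s.re - 1 / 2)) := beta_small (conj_mul' (hL.nrm v h))
    have h3 : ‖x‖ < 1 := beta_lt (hL.nrm v h) (by linarith)
    have e1 : (1 - x) * (1 - y) - 1 = -x - y + x * y := by ring
    rw [e1]
    calc ‖-x - y + x * y‖ ≤ ‖x‖ + ‖y‖ + ‖x‖ * ‖y‖ := by
          refine (norm_add_le _ _).trans ?_
          rw [norm_mul]
          gcongr
          refine (norm_sub_le _ _).trans ?_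
          rw [norm_neg]
      _ ≤ ‖x‖ + ‖y‖ + 1 * ‖y‖ := by gcongr
      _ = 3 * (nm v : ℝ) ^ (-(s.re - 1 / 2)) := by rw [h1, h2]; ring

/-- the `L`-series is not zero to the right of `3 / 2` -/
theorem LSeries_ne {s : ℂ} (hs : 3 / 2 < s.re) : E.LSeries s ≠ 0 := by
  have hsum : Summable fun v : HeightOneSpectrum (𝓞 K) => ‖lf E s v - 1‖ :=
    Summable.of_nonneg_of_le (fun v => norm_nonneg _) (lf_bound hL hs)
      ((nm_summable (x := s.re - 1 / 2) (by linarith)).mul_left 3)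
  have h1 : ∏' v : HeightOneSpectrum (𝓞 K), (1 + (lf E s v - 1)) ≠ 0 :=
    tprod_one_add_ne_zero_of_summable (fun v => by
      rw [add_sub_cancel]
      exact lf_ne hL (by linarith) v) hsum
  have h2 : HasProd (fun v : HeightOneSpectrum (𝓞 K) => 1 + (lf E s v - 1))
      (∏' v : HeightOneSpectrum (𝓞 K), (1 + (lf E s v - 1))) :=
    (multipliable_one_add_of_summable hsum).hasProd
  simp only [add_sub_cancel] at h1 h2
  have h3 := h2.inv₀ h1
  obtain ⟨-, h4⟩ := LSeries_hasProd' E (hbd hL) hs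
  have h5 : (∏' v : HeightOneSpectrum (𝓞 K), lf E s v)⁻¹ = E.LSeries s := h3.unique h4
  rw [← h5]
  exact inv_ne_zero h1

end gen

section mer

variable {K : Type} [Field K] [NumberField K]

lemma fin_S {N : 𝓞 K} (hN : N ≠ 0) : {v : HeightOneSpectrum (𝓞 K) | N ∈ v.asIdeal}.Finite := by
  have h1 : (Ideal.span {N} : Ideal (𝓞 K)) ≠ 0 := by
    rw [Ne, Ideal.zero_eq_bot, Ideal.span_singleton_eq_bot]
    exact hN
  refine (Ideal.finite_factors h1).subset fun v hv => ?_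
  rw [Set.mem_ofPred_eq, Ideal.dvd_span_singleton]
  exact hv

/-- the finite product -/
noncomputable def PS (S : Finset (HeightOneSpectrum (𝓞 K))) (s : ℂ) : ℂ :=
  ∏ v ∈ S, (1 - (nm v : ℂ) ^ (1 - s))

lemma fac_analytic (v : HeightOneSpectrum (𝓞 K)) (s : ℂ) :
    AnalyticAt ℂ (fun s : ℂ => 1 - (nm v : ℂ) ^ (1 - s)) s := by
  have h : Differentiable ℂ (fun s : ℂ => 1 - (nm v : ℂ) ^ (1 - s)) := by
    intro s
    refine (differentiableAt_const _).sub ?_
    exact DifferentiableAt.const_cpow ((differentiableAt_const _).sub differentiableAt_id)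
      (Or.inl (nmc_ne v))
  exact h.analyticAt s

lemma fac_order_one (v : HeightOneSpectrum (𝓞 K)) :
    meromorphicOrderAt (fun s : ℂ => 1 - (nm v : ℂ) ^ (1 - s)) 1 = 1 := by
  have ha := fac_analytic v 1
  have hd : HasDerivAt (fun s : ℂ => 1 - (nm v : ℂ) ^ (1 - s)) (Complex.log (nm v)) 1 := by
    have h1 : HasDerivAt (fun s : ℂ => 1 - s) (-1) 1 := by
      simpa using (hasDerivAt_id (1 : ℂ)).const_sub 1
    have h2 := (h1.const_cpow (c := (nm v : ℂ)) (Or.inl (nmc_ne v))).const_sub 1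
    simpa using h2
  have hlog : Complex.log (nm v) ≠ 0 := by
    rw [← Complex.natCast_log]
    have h2 : (1 : ℝ) < nm v := by exact_mod_cast two_le_nm v
    exact_mod_cast (Real.log_pos h2).ne'
  rw [ha.meromorphicOrderAt_eq]
  have h3 : analyticOrderAt (fun s : ℂ => 1 - (nm v : ℂ) ^ (1 - s)) 1 = 1 := by
    have h4 := ha.analyticOrderAt_sub_eq_one_of_deriv_ne_zero (by rw [hd.deriv]; exact hlog)
    simpa using h4
  rw [h3]
  rfl

lemma order_of_ne {f : ℂ → ℂ} {x : ℂ} (ha : AnalyticAt ℂ f x) (h : f x ≠ 0) :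
    meromorphicOrderAt f x = 0 := by
  rw [ha.meromorphicOrderAt_eq, (ha.analyticOrderAt_eq_zero).2 h]
  rfl

lemma fac_ne (v : HeightOneSpectrum (𝓞 K)) {s : ℂ} (hs : 1 < s.re) :
    1 - (nm v : ℂ) ^ (1 - s) ≠ 0 := by
  have e : 1 - s = -(s - 1) := by ring
  rw [e]
  exact one_sub_ne (norm_lt v (by rw [Complex.sub_re, Complex.one_re]; linarith))

lemma PS_analytic (S : Finset (HeightOneSpectrum (𝓞 K))) (s : ℂ) : AnalyticAt ℂ (PS S) s := by
  have : PS S = fun s : ℂ => ∏ v ∈ S, (1 - (nm v : ℂ) ^ (1 - s)) := rfl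
  rw [this]
  exact Finset.analyticAt_fun_prod S fun v _ => fac_analytic v s

lemma PS_ne (S : Finset (HeightOneSpectrum (𝓞 K))) {s : ℂ} (hs : 1 < s.re) : PS S s ≠ 0 :=
  Finset.prod_ne_zero_iff.2 fun v _ => fac_ne v hs

lemma PS_order (S : Finset (HeightOneSpectrum (𝓞 K))) :
    meromorphicOrderAt (PS S) 1 = ((S.card : ℤ) : WithTop ℤ) := by
  have : PS S = fun s : ℂ => ∏ v ∈ S, (1 - (nm v : ℂ) ^ (1 - s)) := rfl
  rw [this, meromorphicOrderAt_fun_prod fun v _ => (fac_analytic v 1).meromorphicAt,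
    Finset.sum_congr rfl fun v _ => fac_order_one v]
  simp

/-- the zeta function of the base -/
structure ZetaK (K : Type) [Field K] [NumberField K] (Z : ℂ → ℂ) : Prop where
  mer : MeromorphicOn Z Set.univ
  prod : ∀ s : ℂ, 1 < s.re →
    HasProd (fun v : HeightOneSpectrum (𝓞 K) => (1 - (nm v : ℂ) ^ (-s))⁻¹) (Z s)
  one : meromorphicOrderAt Z 1 = ((-1 : ℤ) : WithTop ℤ)
  zero : meromorphicOrderAt Z 0 = 0
  right : ∀ s : ℂ, 1 < s.re → meromorphicOrderAt Z s = 0

variable {W : WeierstrassCurve (𝓞 K)} {E : WeierstrassCurve K} {N : 𝓞 K}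
  {β : HeightOneSpectrum (𝓞 K) → ℂ} {Z G : ℂ → ℂ}

/-- **The zeta function of the surface.** -/
theorem zeta_mer (hN : N ≠ 0) (hF : ∀ v, N ∉ v.asIdeal → Frob W v (β v)) (hL : Loc E N β)
    (hZ : ZetaK K Z) (hG : Differentiable ℂ G) (hGs : ∀ s : ℂ, 3 / 2 < s.re → G s = E.LSeries s) :
    ∃ F : ℂ → ℂ, MeromorphicOn F Set.univ ∧ (∀ s : ℂ, 2 < s.re →
      Multipliable (fun x : {x : XN W N // IsClosed ({x} : Set (XN W N))} =>
        (1 - ((Nat.card ((XN W N).residueField x.1) : ℂ) ^ (-s)))⁻¹) ∧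
        F s = Pool.Agent.Q193.Zeta.zeta (XN W N) s) ∧
      (G 1 ≠ 0 → meromorphicOrderAt F 1 =
        (({v : HeightOneSpectrum (𝓞 K) | N ∈ v.asIdeal}.ncard : ℤ) : WithTop ℤ)) ∧
      meromorphicOrderAt F 2 = ((-1 : ℤ) : WithTop ℤ) ∧
      ∀ m : ℕ, 3 ≤ m → meromorphicOrderAt F (m : ℂ) = 0 := by
  have hfin := fin_S hN
  set S := hfin.toFinset with hS
  have hmS : ∀ v, v ∈ S ↔ N ∈ v.asIdeal := fun v => by
    rw [hS, Set.Finite.mem_toFinset, Set.mem_ofPred_eq]
  have hcard : {v : HeightOneSpectrum (𝓞 K) | N ∈ v.asIdeal}.ncard = S.card :=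
    Set.ncard_eq_toFinset_card _ hfin
  have hZs : MeromorphicOn (fun s => Z (s - 1)) Set.univ := by
    intro s _
    exact (meromorphicAt_comp_sub_const_iff_meromorphicAt).2 (hZ.mer (s - 1) trivial)
  have hZo : ∀ s : ℂ, meromorphicOrderAt (fun s => Z (s - 1)) s = meromorphicOrderAt Z (s - 1) :=
    fun s => meromorphicOrderAt_comp_sub_const_eq_meromorphicOrderAt
  have hGa : ∀ s, AnalyticAt ℂ G s := fun s => hG.analyticAt s
  have hord : ∀ s : ℂ, meromorphicOrderAt (fun s => Z (s - 1) * PS S s * (G s)⁻¹) s =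
      meromorphicOrderAt Z (s - 1) + meromorphicOrderAt (PS S) s + -meromorphicOrderAt G s := by
    intro s
    have m1 := hZs s trivial
    have m2 := (PS_analytic S s).meromorphicAt
    have m3 := (hGa s).meromorphicAt
    have h1 : (fun s => Z (s - 1) * PS S s * (G s)⁻¹) = ((fun s => Z (s - 1)) * PS S) * G⁻¹ := rfl
    rw [h1, meromorphicOrderAt_mul (m1.mul m2) m3.inv, meromorphicOrderAt_mul m1 m2,
      meromorphicOrderAt_inv, hZo]
  refine ⟨fun s => Z (s - 1) * PS S s * (G s)⁻¹, ?_, ?_, ?_, ?_, ?_⟩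
  · intro s _
    exact ((hZs s trivial).mul (PS_analytic S s).meromorphicAt).mul (hGa s).meromorphicAt.inv
  · intro s hs
    obtain ⟨h1, h2⟩ := ep_main W N β hF hs
    refine ⟨h1, ?_⟩
    have hz := hZ.prod (s - 1) (by rw [Complex.sub_re, Complex.one_re]; linarith)
    obtain ⟨-, hl⟩ := LSeries_hasProd' E (hbd hL) (s := s) (by linarith)
    have hu : HasProd (fun v : HeightOneSpectrum (𝓞 K) =>
        if v ∈ S then 1 - (nm v : ℂ) ^ (1 - s) else 1) (PS S s) := by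
      have h3 : PS S s = ∏ v ∈ S, (if v ∈ S then 1 - (nm v : ℂ) ^ (1 - s) else 1) :=
        Finset.prod_congr rfl fun v hv => by rw [if_pos hv]
      rw [h3]
      exact hasProd_prod_of_ne_finset_one fun v hv => by rw [if_neg hv]
    -- the product over the good places as a product over all the places
    set k : HeightOneSpectrum (𝓞 K) → ℂ := fun v => if N ∈ v.asIdeal then 1 else
      (1 - (nm v : ℂ) ^ (1 - s))⁻¹ * (1 - β v * (nm v : ℂ) ^ (-s)) *
        (1 - (starRingEnd ℂ) (β v) * (nm v : ℂ) ^ (-s)) with hk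
    have hkp : HasProd k (Pool.Agent.Q193.Zeta.zeta (XN W N) s) := by
      have h3 : HasProd (k ∘ (Subtype.val : {v : HeightOneSpectrum (𝓞 K) // N ∉ v.asIdeal} → _))
          (Pool.Agent.Q193.Zeta.zeta (XN W N) s) := by
        refine h2.congr_fun fun v => ?_
        rw [Function.comp_apply, hk]
        simp only
        rw [if_neg v.2]
      refine (hasProd_subtype_iff_of_mulSupport_subset
        (s := {v : HeightOneSpectrum (𝓞 K) | N ∉ v.asIdeal}) ?_).1 h3
      intro v hv hN'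
      rw [Function.mem_mulSupport] at hv
      apply hv
      rw [hk]
      simp only
      have : N ∈ v.asIdeal := hN'
      rw [if_pos this]
    have e1 : Pool.Agent.Q193.Zeta.zeta (XN W N) s * E.LSeries s = Z (s - 1) * PS S s := by
      refine (hkp.mul hl).unique ((hz.mul hu).congr_fun fun v => ?_)
      have e2 : -(s - 1) = 1 - s := by ring
      by_cases hv : N ∈ v.asIdeal
      · rw [hk]
        simp only
        rw [if_pos hv, if_pos ((hmS v).2 hv), (hL.bad v hv).1, (hL.bad v hv).2, e2,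
          inv_mul_cancel₀ (fac_ne v (by linarith))]
        simp
      · have h5 := lf_split (hL.nrm v hv) (hL.aV v hv) (hL.eV v hv) s
        have h6 := lf_ne hL (s := s) (by linarith) v
        unfold lf at h5 h6
        rw [hk]
        simp only
        rw [if_neg hv, if_neg (fun h => hv ((hmS v).1 h)), e2, mul_one, mul_assoc (1 - _)⁻¹, ← h5,
          mul_assoc, mul_inv_cancel₀ h6, mul_one]
    have h7 : E.LSeries s ≠ 0 := LSeries_ne hL (by linarith)
    show Z (s - 1) * PS S s * (G s)⁻¹ = _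
    rw [hGs s (by linarith), ← e1, mul_assoc, mul_inv_cancel₀ h7, mul_one]
  · intro hG1
    rw [hord, PS_order, order_of_ne (hGa 1) hG1, sub_self, hZ.zero, hcard]
    simp
  · have hG2 : G 2 ≠ 0 := by
      rw [hGs 2 (by norm_num)]
      exact LSeries_ne hL (by norm_num)
    have e2 : (2 : ℂ) - 1 = 1 := by norm_num
    rw [hord, order_of_ne (hGa 2) hG2, order_of_ne (PS_analytic S 2) (PS_ne S (by norm_num)), e2,
      hZ.one]
    simp
  · intro m hm
    have hm' : (3 : ℝ) ≤ m := by exact_mod_cast hm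
    have hGm : G m ≠ 0 := by
      rw [hGs m (by rw [Complex.natCast_re]; linarith)]
      exact LSeries_ne hL (by rw [Complex.natCast_re]; linarith)
    rw [hord, order_of_ne (hGa m) hGm, order_of_ne (PS_analytic S m)
      (PS_ne S (by rw [Complex.natCast_re]; linarith)), hZ.right (m - 1)
      (by rw [Complex.sub_re, Complex.natCast_re, Complex.one_re]; linarith)]
    simp

end mer

end Pool.Agent.D0H69.BS
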