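import Pool.Agent.D0H76.BS.Mer

/-!
# The zeta function of the surface if the `L`-function is only known to be meromorphic

Adapted from helper76 (`D0H76/BS/Mer.lean`): the `L`-function is meromorphic, of order zero at `1`, and its
Euler product is only used for `Re s > 2`.
-/

set_option autoImplicit false
set_option linter.unusedVariables false
set_option linter.unusedSectionVars false

open NumberField IsDedekindDomain CategoryTheory AlgebraicGeometry Filter Topology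
open scoped Classical

namespace Pool.Agent.D0H69.BS

open Pool.Agent.H921R2.TatePole (nm two_le_nm nm_summable)
open Pool.Agent.D0H76.BS (zka)

/-- a meromorphic function which is bounded from above and from below on a path has order zero -/
theorem order_zero {H : ℂ → ℂ} {m : ℂ} {c C : ℝ} (hc : 0 < c)
    (h : ∀ t : ℝ, 0 < t → t < 1 → c ≤ ‖H (m + t)‖ ∧ ‖H (m + t)‖ ≤ C) :
    meromorphicOrderAt H m = 0 := by
  have hpath : Tendsto (fun t : ℝ => m + (t : ℂ)) (𝓝[>] (0 : ℝ)) (𝓝[≠] m) := by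
    refine tendsto_nhdsWithin_iff.2 ⟨?_, ?_⟩
    · have h1 : Continuous (fun t : ℝ => m + (t : ℂ)) := by fun_prop
      have h2 := h1.tendsto 0
      simp only [Complex.ofReal_zero, add_zero] at h2
      exact h2.mono_left nhdsWithin_le_nhds
    · filter_upwards [self_mem_nhdsWithin] with t ht
      have ht' : (0 : ℝ) < t := ht
      intro h3
      have h4 : (t : ℂ) = 0 := by
        have h5 : m + (t : ℂ) = m := h3
        linear_combination h5
      rw [Complex.ofReal_eq_zero] at h4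
      exact ht'.ne' h4
  have hev : ∀ᶠ t : ℝ in 𝓝[>] (0 : ℝ), c ≤ ‖H (m + t)‖ ∧ ‖H (m + t)‖ ≤ C := by
    filter_upwards [Ioo_mem_nhdsGT (zero_lt_one (α := ℝ))] with t ht
    exact h t ht.1 ht.2
  rcases lt_trichotomy (meromorphicOrderAt H m) 0 with h1 | h1 | h1
  · exfalso
    have h2 := (tendsto_norm_atTop_iff_cobounded.2 (tendsto_cobounded_of_meromorphicOrderAt_neg h1)).comp hpath
    obtain ⟨t, h3, h4⟩ := ((h2.eventually_gt_atTop C).and hev).exists
    exact absurd h4.2 (not_le.2 h3)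
  · exact h1
  · exfalso
    have h2 := (tendsto_zero_of_meromorphicOrderAt_pos h1).norm.comp hpath
    rw [norm_zero] at h2
    obtain ⟨t, h3, h4⟩ := ((h2.eventually (gt_mem_nhds hc)).and hev).exists
    exact absurd h4.1 (not_le.2 h3)

/-- the bound for a product -/
theorem prod_bound {ι : Type} {g : ι → ℂ} {b : ι → ℝ} (hb : Summable b) (h : ∀ i, ‖g i - 1‖ ≤ b i)
    {P : ℂ} (hP : HasProd g P) : ‖P‖ ≤ Real.exp (∑' i, b i) := by
  have hb0 : ∀ i, 0 ≤ b i := fun i => (norm_nonneg _).trans (h i)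
  refine le_of_tendsto hP.norm ?_
  refine Eventually.of_forall fun t => ?_
  have h1 := Finset.norm_prod_one_add_sub_one_le t (fun i => g i - 1)
  simp only [add_sub_cancel] at h1
  have h2 : ∑ i ∈ t, ‖g i - 1‖ ≤ ∑' i, b i :=
    (Finset.sum_le_sum fun i _ => h i).trans (hb.sum_le_tsum t fun i _ => hb0 i)
  have h3 : ‖∏ i ∈ t, g i‖ ≤ ‖∏ i ∈ t, g i - 1‖ + 1 := by
    have h4 := norm_add_le (∏ i ∈ t, g i - 1) 1
    rw [sub_add_cancel, norm_one] at h4
    exact h4
  have h5 := Real.exp_le_exp.2 h2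
  show ∏ i ∈ t, ‖g i‖ ≤ _
  rw [← norm_prod]
  linarith

variable {K : Type} [Field K] [NumberField K] {W : WeierstrassCurve (𝓞 K)} {N : 𝓞 K}
  {β : HeightOneSpectrum (𝓞 K) → ℂ} {G : ℂ → ℂ} {dn : ℂ → HeightOneSpectrum (𝓞 K) → ℂ}

/-- the local data: `dn s v` is the inverse of the factor at `v` -/
structure LcF (N : 𝓞 K) (β : HeightOneSpectrum (𝓞 K) → ℂ) (dn : ℂ → HeightOneSpectrum (𝓞 K) → ℂ) :
    Prop where
  nrm : ∀ v, N ∉ v.asIdeal → β v * (starRingEnd ℂ) (β v) = nm v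
  good : ∀ v, N ∉ v.asIdeal → ∀ s, dn s v =
    (1 - β v * (nm v : ℂ) ^ (-s)) * (1 - (starRingEnd ℂ) (β v) * (nm v : ℂ) ^ (-s))
  diff : ∀ v, N ∈ v.asIdeal → Differentiable ℂ (fun s => dn s v)
  one : ∀ v, N ∈ v.asIdeal → dn 1 v ≠ 0
  ne : ∀ v, N ∈ v.asIdeal → ∀ s : ℂ, 2 < s.re → dn s v ≠ 0

lemma LcF.ne' (hL : LcF N β dn) (v : HeightOneSpectrum (𝓞 K)) {s : ℂ} (hs : 2 < s.re) :
    dn s v ≠ 0 := by
  by_cases h : N ∈ v.asIdeal
  · exact hL.ne v h s hs
  · rw [hL.good v h]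
    exact mul_ne_zero (one_sub_ne (beta_lt (hL.nrm v h) (by linarith)))
      (one_sub_ne (beta_lt (conj_mul' (hL.nrm v h)) (by linarith)))

lemma nm32 (v : HeightOneSpectrum (𝓞 K)) {s : ℂ} (hs : 2 ≤ s.re) :
    (nm v : ℝ) ^ (-(s.re - 1 / 2)) ≤ (nm v : ℝ) ^ (-(3 / 2 : ℝ)) :=
  Real.rpow_le_rpow_of_exponent_le (by exact_mod_cast (two_le_nm v).trans' (by norm_num))
    (by linarith)

lemma nm32_le (v : HeightOneSpectrum (𝓞 K)) : (nm v : ℝ) ^ (-(3 / 2 : ℝ)) ≤ 1 / 2 := by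
  have h2 : (2 : ℝ) ≤ nm v := by exact_mod_cast two_le_nm v
  calc (nm v : ℝ) ^ (-(3 / 2 : ℝ)) ≤ (nm v : ℝ) ^ (-1 : ℝ) :=
        Real.rpow_le_rpow_of_exponent_le (by linarith) (by norm_num)
    _ = (nm v : ℝ)⁻¹ := Real.rpow_neg_one _
    _ ≤ 2⁻¹ := inv_anti₀ (by norm_num) h2
    _ = 1 / 2 := by norm_num

lemma LcF.bound (hL : LcF N β dn) {s : ℂ} (hs : 2 ≤ s.re) (v : HeightOneSpectrum (𝓞 K))
    (h : N ∉ v.asIdeal) : ‖dn s v - 1‖ ≤ 3 * (nm v : ℝ) ^ (-(3 / 2 : ℝ)) ∧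
      ‖(dn s v)⁻¹ - 1‖ ≤ 12 * (nm v : ℝ) ^ (-(3 / 2 : ℝ)) := by
  rw [hL.good v h]
  set x := β v * (nm v : ℂ) ^ (-s) with hx
  set y := (starRingEnd ℂ) (β v) * (nm v : ℂ) ^ (-s) with hy
  set q := (nm v : ℝ) ^ (-(3 / 2 : ℝ)) with hq
  have hq2 : q ≤ 1 / 2 := nm32_le v
  have hq0 : 0 ≤ q := by positivity
  have h1 : ‖x‖ ≤ q := by
    rw [hx, beta_small (hL.nrm v h)]
    exact nm32 v hs
  have h2 : ‖y‖ ≤ q := by
    rw [hy, beta_small (conj_mul' (hL.nrm v h))]
    exact nm32 v hs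
  have e1 : (1 - x) * (1 - y) - 1 = -x - y + x * y := by ring
  have h3 : ‖(1 - x) * (1 - y) - 1‖ ≤ 3 * q := by
    rw [e1]
    calc ‖-x - y + x * y‖ ≤ ‖x‖ + ‖y‖ + ‖x‖ * ‖y‖ := by
          refine (norm_add_le _ _).trans ?_
          rw [norm_mul]
          gcongr
          refine (norm_sub_le _ _).trans ?_
          rw [norm_neg]
      _ ≤ q + q + 1 * q := by
          gcongr
          exact h1.trans (by linarith)
      _ = 3 * q := by ring
  refine ⟨h3, ?_⟩
  have h4 : ∀ z : ℂ, ‖z‖ ≤ 1 / 2 → 1 / 2 ≤ ‖1 - z‖ := by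
    intro z hz
    have h5 := norm_sub_norm_le (1 : ℂ) z
    rw [norm_one] at h5
    linarith
  have h5 : 1 / 4 ≤ ‖(1 - x) * (1 - y)‖ := by
    rw [norm_mul]
    have h6 := h4 x (h1.trans hq2)
    have h7 := h4 y (h2.trans hq2)
    nlinarith
  have hne : (1 - x) * (1 - y) ≠ 0 := by
    intro h0
    rw [h0, norm_zero] at h5
    norm_num at h5
  have e2 : ((1 - x) * (1 - y))⁻¹ - 1 = -(((1 - x) * (1 - y) - 1) * ((1 - x) * (1 - y))⁻¹) := by
    have e3 : ∀ p : ℂ, p ≠ 0 → p⁻¹ - 1 = -((p - 1) * p⁻¹) := by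
      intro p hp
      rw [sub_mul, mul_inv_cancel₀ hp]
      ring
    exact e3 _ hne
  rw [e2, norm_neg, norm_mul, norm_inv]
  have h8 : ‖(1 - x) * (1 - y)‖⁻¹ ≤ 4 := by
    rw [inv_le_comm₀ (by linarith) (by norm_num)]
    linarith
  calc ‖(1 - x) * (1 - y) - 1‖ * ‖(1 - x) * (1 - y)‖⁻¹ ≤ (3 * q) * 4 := by gcongr
    _ = 12 * q := by ring

/-- the product over the good places -/
noncomputable def gd (N : 𝓞 K) (dn : ℂ → HeightOneSpectrum (𝓞 K) → ℂ) (s : ℂ)
    (v : HeightOneSpectrum (𝓞 K)) : ℂ := if N ∈ v.asIdeal then 1 else dn s v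

theorem LcF.two_bounds (hL : LcF N β dn) : ∃ c C : ℝ, 0 < c ∧ ∀ (s : ℂ), 2 < s.re → ∀ P : ℂ,
    HasProd (fun v => (gd N dn s v)⁻¹) P → c ≤ ‖P‖ ∧ ‖P‖ ≤ C := by
  have hsm := (nm_summable (K := K) (x := 3 / 2) (by norm_num))
  have hs3 : Summable fun v : HeightOneSpectrum (𝓞 K) => 3 * (nm v : ℝ) ^ (-(3 / 2 : ℝ)) :=
    hsm.mul_left 3
  have hs12 : Summable fun v : HeightOneSpectrum (𝓞 K) => 12 * (nm v : ℝ) ^ (-(3 / 2 : ℝ)) :=
    hsm.mul_left 12
  refine ⟨(Real.exp (∑' v : HeightOneSpectrum (𝓞 K), 3 * (nm v : ℝ) ^ (-(3 / 2 : ℝ))))⁻¹,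
    Real.exp (∑' v : HeightOneSpectrum (𝓞 K), 12 * (nm v : ℝ) ^ (-(3 / 2 : ℝ))),
    inv_pos.2 (Real.exp_pos _), fun s hs P hP => ?_⟩
  have hb3 : ∀ v, ‖gd N dn s v - 1‖ ≤ 3 * (nm v : ℝ) ^ (-(3 / 2 : ℝ)) := by
    intro v
    unfold gd
    split_ifs with h
    · rw [sub_self, norm_zero]
      positivity
    · exact (hL.bound hs.le v h).1
  have hb12 : ∀ v, ‖(gd N dn s v)⁻¹ - 1‖ ≤ 12 * (nm v : ℝ) ^ (-(3 / 2 : ℝ)) := by
    intro v
    unfold gd
    split_ifs with h
    · rw [inv_one, sub_self, norm_zero]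
      positivity
    · exact (hL.bound hs.le v h).2
  have hgn : ∀ v, gd N dn s v ≠ 0 := by
    intro v
    unfold gd
    split_ifs with h
    · exact one_ne_zero
    · exact hL.ne' v hs
  have hsum : Summable fun v : HeightOneSpectrum (𝓞 K) => ‖gd N dn s v - 1‖ :=
    Summable.of_nonneg_of_le (fun _ => norm_nonneg _) hb3 hs3
  have h1 : ∏' v : HeightOneSpectrum (𝓞 K), (1 + (gd N dn s v - 1)) ≠ 0 :=
    tprod_one_add_ne_zero_of_summable (fun v => by
      rw [add_sub_cancel]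
      exact hgn v) hsum
  have h2 : HasProd (fun v : HeightOneSpectrum (𝓞 K) => 1 + (gd N dn s v - 1))
      (∏' v : HeightOneSpectrum (𝓞 K), (1 + (gd N dn s v - 1))) :=
    (multipliable_one_add_of_summable hsum).hasProd
  simp only [add_sub_cancel] at h1 h2
  set Q := ∏' v : HeightOneSpectrum (𝓞 K), gd N dn s v with hQ
  have h3 : P = Q⁻¹ := hP.unique (h2.inv₀ h1)
  have h4 := prod_bound hs3 hb3 h2
  refine ⟨?_, prod_bound hs12 hb12 hP⟩
  rw [h3, norm_inv]
  exact inv_anti₀ (norm_pos_iff.2 h1) h4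

/-- the product of the inverses of the factors at the places of `S` -/
noncomputable def DF (dn : ℂ → HeightOneSpectrum (𝓞 K) → ℂ) (S : Finset (HeightOneSpectrum (𝓞 K)))
    (s : ℂ) : ℂ := ∏ v ∈ S, dn s v

/-- **The zeta function of the surface.** -/
theorem zeta_merF (hN : N ≠ 0) (hF : ∀ v, N ∉ v.asIdeal → Frob W v (β v)) (hL : LcF N β dn)
    (hG : MeromorphicOn G Set.univ) (hG1 : meromorphicOrderAt G 1 = 0)
    (hGs : ∀ s : ℂ, 2 < s.re → HasProd (fun v => (dn s v)⁻¹) (G s)) :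
    ∃ F : ℂ → ℂ, MeromorphicOn F Set.univ ∧ (∀ s : ℂ, 2 < s.re →
      Multipliable (fun x : {x : XN W N // IsClosed ({x} : Set (XN W N))} =>
        (1 - ((Nat.card ((XN W N).residueField x.1) : ℂ) ^ (-s)))⁻¹) ∧
        F s = Pool.Agent.Q193.Zeta.zeta (XN W N) s) ∧
      meromorphicOrderAt F 1 =
        (((Units.rank K + {v : HeightOneSpectrum (𝓞 K) | N ∈ v.asIdeal}.ncard : ℕ) : ℤ) :
          WithTop ℤ) ∧
      meromorphicOrderAt F 2 = ((-1 : ℤ) : WithTop ℤ) ∧
      ∀ m : ℕ, 3 ≤ m → meromorphicOrderAt F (m : ℂ) = 0 := by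
  obtain ⟨Z, z1, z2, z3, z4, z5⟩ := zka K
  have hfin := fin_S hN
  set S := hfin.toFinset with hS
  have hmS : ∀ v, v ∈ S ↔ N ∈ v.asIdeal := fun v => by
    rw [hS, Set.Finite.mem_toFinset, Set.mem_ofPred_eq]
  have hcard : {v : HeightOneSpectrum (𝓞 K) | N ∈ v.asIdeal}.ncard = S.card :=
    Set.ncard_eq_toFinset_card _ hfin
  have hZs : MeromorphicOn (fun s => Z (s - 1)) Set.univ := by
    intro s _
    exact (meromorphicAt_comp_sub_const_iff_meromorphicAt).2 (z1 (s - 1) trivial)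
  have hZo : ∀ s : ℂ, meromorphicOrderAt (fun s => Z (s - 1)) s = meromorphicOrderAt Z (s - 1) :=
    fun s => meromorphicOrderAt_comp_sub_const_eq_meromorphicOrderAt
  have hDd : Differentiable ℂ (DF dn S) := by
    have : DF dn S = fun s : ℂ => ∏ v ∈ S, dn s v := rfl
    rw [this]
    exact Differentiable.fun_finsetProd fun v hv => hL.diff v ((hmS v).1 hv)
  have hDn : ∀ s : ℂ, 2 < s.re → DF dn S s ≠ 0 := fun s hs =>
    Finset.prod_ne_zero_iff.2 fun v _ => hL.ne' v hs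
  have hD1 : DF dn S 1 ≠ 0 := Finset.prod_ne_zero_iff.2 fun v hv => hL.one v ((hmS v).1 hv)
  set H : ℂ → ℂ := fun s => G s * DF dn S s with hH
  have hHm : ∀ s, MeromorphicAt H s := fun s => (hG s trivial).mul (hDd.analyticAt s).meromorphicAt
  -- the product over the good places
  have hHp : ∀ s : ℂ, 2 < s.re → HasProd (fun v => (gd N dn s v)⁻¹) (H s) := by
    intro s hs
    have h1 : HasProd (fun v => if v ∈ S then dn s v else 1)
        (∏ v ∈ S, if v ∈ S then dn s v else 1) :=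
      hasProd_prod_of_ne_finset_one fun v hv => if_neg hv
    have h2 : ∏ v ∈ S, (if v ∈ S then dn s v else 1) = DF dn S s :=
      Finset.prod_congr rfl fun v hv => if_pos hv
    rw [h2] at h1
    refine ((hGs s hs).mul h1).congr_fun fun v => ?_
    unfold gd
    by_cases hv : N ∈ v.asIdeal
    · rw [if_pos hv, if_pos ((hmS v).2 hv), inv_one, inv_mul_cancel₀ (hL.ne' v hs)]
    · rw [if_neg hv, if_neg (fun h => hv ((hmS v).1 h)), mul_one]
  obtain ⟨c, C, hc, hcC⟩ := hL.two_bounds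
  have hH0 : ∀ m : ℂ, 2 ≤ m.re → meromorphicOrderAt H m = 0 := by
    intro m hm
    refine order_zero hc (C := C) fun t ht _ => ?_
    have h1 : 2 < (m + (t : ℂ)).re := by
      rw [Complex.add_re, Complex.ofReal_re]
      linarith
    exact hcC _ h1 _ (hHp _ h1)
  have hGne : ∀ s : ℂ, 2 < s.re → G s ≠ 0 := by
    intro s hs h0
    have h1 := (hcC s hs _ (hHp s hs)).1
    rw [hH] at h1
    simp only [h0, zero_mul, norm_zero] at h1
    linarith
  have hord : ∀ s : ℂ, meromorphicOrderAt (fun s => Z (s - 1) * PS S s * (H s)⁻¹) s =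
      meromorphicOrderAt Z (s - 1) + meromorphicOrderAt (PS S) s + -meromorphicOrderAt H s := by
    intro s
    have m1 := hZs s trivial
    have m2 := (PS_analytic S s).meromorphicAt
    have h1 : (fun s => Z (s - 1) * PS S s * (H s)⁻¹) = ((fun s => Z (s - 1)) * PS S) * H⁻¹ := rfl
    rw [h1, meromorphicOrderAt_mul (m1.mul m2) (hHm s).inv, meromorphicOrderAt_mul m1 m2,
      meromorphicOrderAt_inv, hZo]
  refine ⟨fun s => Z (s - 1) * PS S s * (H s)⁻¹, ?_, ?_, ?_, ?_, ?_⟩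
  · intro s _
    exact ((hZs s trivial).mul (PS_analytic S s).meromorphicAt).mul (hHm s).inv
  · intro s hs
    obtain ⟨h1, h2⟩ := ep_main W N β hF hs
    refine ⟨h1, ?_⟩
    have hz := z2 (s - 1) (by rw [Complex.sub_re, Complex.one_re]; linarith)
    have hl := hGs s hs
    have hu : HasProd (fun v : HeightOneSpectrum (𝓞 K) =>
        if v ∈ S then (1 - (nm v : ℂ) ^ (1 - s)) * (dn s v)⁻¹ else 1) (PS S s * (DF dn S s)⁻¹) := by
      have h3 : PS S s * (DF dn S s)⁻¹ =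
          ∏ v ∈ S, (if v ∈ S then (1 - (nm v : ℂ) ^ (1 - s)) * (dn s v)⁻¹ else 1) := by
        unfold PS DF
        rw [← Finset.prod_inv_distrib, ← Finset.prod_mul_distrib]
        exact Finset.prod_congr rfl fun v hv => by rw [if_pos hv]
      rw [h3]
      exact hasProd_prod_of_ne_finset_one fun v hv => by rw [if_neg hv]
    -- the product over the good places as a product over all the places
    set k : HeightOneSpectrum (𝓞 K) → ℂ := fun v => if N ∈ v.asIdeal then 1 else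
      (1 - (nm v : ℂ) ^ (1 - s))⁻¹ * (1 - β v * (nm v : ℂ) ^ (-s)) *
        (1 - (starRingEnd ℂ) (β v) * (nm v : ℂ) ^ (-s)) with hk
    have hkp : HasProd k (Pool.Agent.Q193.Zeta.zeta (XN W N) s) := by
      have h3 : HasProd (k ∘ (Subtype.val : {v : HeightOneSpectrum (𝓞 K) // N ∉ v.asIdeal} → _))
          (Pool.Agent.Q193.Zeta.zeta (XN W N) s) := by
        refine h2.congr_fun fun v => ?_
        rw [Function.comp_apply, hk]
        simp only
        rw [if_neg v.2]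
      refine (hasProd_subtype_iff_of_mulSupport_subset
        (s := {v : HeightOneSpectrum (𝓞 K) | N ∉ v.asIdeal}) ?_).1 h3
      intro v hv hN'
      rw [Function.mem_mulSupport] at hv
      apply hv
      rw [hk]
      simp only
      have : N ∈ v.asIdeal := hN'
      rw [if_pos this]
    have e1 : Pool.Agent.Q193.Zeta.zeta (XN W N) s * G s =
        Z (s - 1) * (PS S s * (DF dn S s)⁻¹) := by
      refine (hkp.mul hl).unique ((hz.mul hu).congr_fun fun v => ?_)
      have e2 : -(s - 1) = 1 - s := by ring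
      by_cases hv : N ∈ v.asIdeal
      · rw [hk]
        simp only
        rw [if_pos hv, if_pos ((hmS v).2 hv), e2, ← mul_assoc,
          inv_mul_cancel₀ (fac_ne v (by linarith))]
      · have h5 := hL.good v hv s
        have h6 := hL.ne' v hs
        rw [hk]
        simp only
        rw [if_neg hv, if_neg (fun h => hv ((hmS v).1 h)), e2, mul_one, mul_assoc (1 - _)⁻¹, ← h5,
          mul_assoc, mul_inv_cancel₀ h6, mul_one]
    have h7 : G s ≠ 0 := hGne s hs
    have h8 : DF dn S s ≠ 0 := hDn s hs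
    show Z (s - 1) * PS S s * (G s * DF dn S s)⁻¹ = _
    rw [mul_inv]
    calc Z (s - 1) * PS S s * ((G s)⁻¹ * (DF dn S s)⁻¹) =
        (Z (s - 1) * (PS S s * (DF dn S s)⁻¹)) * (G s)⁻¹ := by ring
      _ = _ := by rw [← e1, mul_assoc, mul_inv_cancel₀ h7, mul_one]
  · have hH1 : meromorphicOrderAt H 1 = 0 := by
      have h1 : H = G * DF dn S := rfl
      rw [h1, meromorphicOrderAt_mul (hG 1 trivial) (hDd.analyticAt 1).meromorphicAt, hG1,
        order_of_ne (hDd.analyticAt 1) hD1, add_zero]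
    rw [hord, PS_order, hH1, sub_self, z4, hcard, neg_zero, add_zero, ← WithTop.coe_add]
    push_cast
    rfl
  · have e2 : (2 : ℂ) - 1 = 1 := by norm_num
    rw [hord, hH0 2 (by norm_num), order_of_ne (PS_analytic S 2) (PS_ne S (by norm_num)), e2, z3]
    simp
  · intro m hm
    have hm' : (3 : ℝ) ≤ m := by exact_mod_cast hm
    rw [hord, hH0 m (by rw [Complex.natCast_re]; linarith), order_of_ne (PS_analytic S m)
      (PS_ne S (by rw [Complex.natCast_re]; linarith)), z5 (m - 1)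
      (by rw [Complex.sub_re, Complex.natCast_re, Complex.one_re]; linarith)]
    simp

end Pool.Agent.D0H69.BS
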