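import Pool.Agent.D0H69.BS.Cub
import Pool.Agent.D0H10.KH.End

/-!
# Project BS: the places dividing `3 D`, `D` cube-free
-/

set_option autoImplicit false
set_option linter.unusedVariables false
set_option linter.unusedSectionVars false

open NumberField IsDedekindDomain
open scoped Classical

namespace Pool.Agent.D0H69.BS

open Pool.Agent.W189.NF (aV eV)
open Pool.Agent.Y703.CT
open Pool.Agent.Y696 Pool.Agent.Y696.CT
open Pool.Agent.Y696.CTK
open Pool.Agent.Y692.QS hiding chi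
open Pool.Agent.Y715.T.RecG (Pq)
open Pool.Agent.N883.FF (FamE fam_data pB)
open Pool.Agent.N883.FF.Lk (isUnit_wpow)
open Pool.Agent.Y715.T.Gi (lam prime_lam lam_sq)
open Pool.Agent.D0H10.KH

variable {K : Type} [Field K] [NumberField K] (j : Ei ≃+* 𝓞 K)
variable {J : Type} [Fintype J] {π : J → Ei} {e : J → ZMod 3}

lemma bad_pi (hdt : Dt π e) (i : ZMod 3) (b : Bool) {a : ℕ} (ha : a < 3)
    {v : HeightOneSpectrum (𝓞 K)}
    (h : 3 * j (sg b * (lam ^ a * (w ^ i.val * pD π e))) ∈ v.asIdeal) :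
    aV (ED (j (sg b * (lam ^ a * (w ^ i.val * pD π e))) : K)) v = 0 ∧
      eV (ED (j (sg b * (lam ^ a * (w ^ i.val * pD π e))) : K)) v = 0 := by
  obtain ⟨P, rfl⟩ := (eK j).surjective v
  change 3 * j (sg b * (lam ^ a * (w ^ i.val * pD π e))) ∈ (pK j P).asIdeal at h
  show aV _ (pK j P) = 0 ∧ eV _ (pK j P) = 0
  by_cases hP3 : (3 : ℤ) ∣ nr (gn P.asIdeal)
  · exact bad3 j hP3 b ha (z_nd hdt i)
  · set α := ns (gn P.asIdeal) with hα
    have hs := span_ns hP3
    rw [← hα] at hs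
    have hpq := pq_ns hP3
    rw [← hα] at hpq
    have hcu : ∀ ρ, Pq ρ → ¬ ρ ∣ sg b * (lam ^ a * w ^ i.val) := by
      intro ρ hρ h
      rcases hρ.prime.dvd_or_dvd h with h | h
      · exact hρ.prime.not_isUnit (isUnit_of_dvd_unit h (sg_unit b))
      rcases hρ.prime.dvd_or_dvd h with h | h
      · exact hρ.norm ((hρ.prime.dvd_of_dvd_pow h).trans lam_dvd_three)
      · exact hρ.prime.not_isUnit (isUnit_of_dvd_unit h (isUnit_wpow _))
    have e1 : sg b * (lam ^ a * (w ^ i.val * pD π e)) =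
        sg b * (lam ^ a * w ^ i.val) * pD π e := by ring
    have e3 : (3 : 𝓞 K) = j 3 := (map_ofNat j 3).symm
    rw [e3, ← map_mul, mem_pK, hs, Ideal.mem_span_singleton, e1] at h
    have hd : α ∣ pD π e := by
      rcases hpq.prime.dvd_or_dvd h with h | h
      · exact absurd h hpq.norm
      · exact (hpq.prime.dvd_or_dvd h).resolve_left (hcu α hpq)
    obtain ⟨k, hk⟩ := dvd_pD hpq.prime hdt hd
    have hsk : P.asIdeal = Ideal.span {π k} := by
      rw [hs]
      exact Ideal.span_singleton_eq_span_singleton.2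
        ((hdt.pq k).prime.associated_of_dvd hpq.prime hk).symm
    rw [e1]
    exact badD j hdt _ (fun l => hcu (π l) (hdt.pq l)) hsk

include j in
/-- **the bad places** -/
theorem bad_fam {D : 𝓞 K} (hD : FamH D) {v : HeightOneSpectrum (𝓞 K)}
    (h : 3 * D ∈ v.asIdeal) : aV (ED (D : K)) v = 0 ∧ eV (ED (D : K)) v = 0 := by
  obtain ⟨D, rfl⟩ := j.surjective D
  obtain ⟨b, a, z, ha, hz, rfl⟩ := dec ((famH_iff j D).1 hD)
  obtain ⟨i, n, π, e, hdt, rfl⟩ := fam_data hz
  exact bad_pi j hdt i b ha h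

end Pool.Agent.D0H69.BS
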