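import Pool.Agent.D0H69.BS.Stm2

/-!
# Project BS: ring homomorphisms from the coordinate ring to finite fields
-/

set_option autoImplicit false
set_option linter.unusedSectionVars false

open NumberField IsDedekindDomain CategoryTheory AlgebraicGeometry Polynomial
open scoped Classical

namespace Pool.Agent.D0H69.BS

open Pool.Agent.H921R2.TatePole (nm two_le_nm)
open WeierstrassCurve.Affine
open Pool.Agent.Q193.Zeta (cf Fib card_hom)

section homs

variable {K : Type} [Field K] [NumberField K] (W : WeierstrassCurve (𝓞 K)) (N : 𝓞 K)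
variable (F : Type) [Field F]

/-- the triples -/
abbrev Tr : Type := {t : (𝓞 K →+* F) × F × F // t.1 N ≠ 0 ∧
  t.2.2 ^ 2 + t.1 W.a₁ * t.2.1 * t.2.2 + t.1 W.a₃ * t.2.2 =
    t.2.1 ^ 3 + t.1 W.a₂ * t.2.1 ^ 2 + t.1 W.a₄ * t.2.1 + t.1 W.a₆}

lemma eval_poly {R : Type} [CommRing R] (V : WeierstrassCurve R) (φ : R →+* F) (x y : F) :
    eval₂ (eval₂RingHom φ x) y V.toAffine.polynomial =
      y ^ 2 + (φ V.a₁ * x + φ V.a₃) * y - (x ^ 3 + φ V.a₂ * x ^ 2 + φ V.a₄ * x + φ V.a₆) := by
  unfold WeierstrassCurve.Affine.polynomial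
  simp [eval₂_add, eval₂_sub, eval₂_mul, eval₂_pow, eval₂_C, eval₂_X]

lemma b1 : (W.baseChange (Localization.Away N)).a₁ = algebraMap (𝓞 K) _ W.a₁ := rfl
lemma b2 : (W.baseChange (Localization.Away N)).a₂ = algebraMap (𝓞 K) _ W.a₂ := rfl
lemma b3 : (W.baseChange (Localization.Away N)).a₃ = algebraMap (𝓞 K) _ W.a₃ := rfl
lemma b4 : (W.baseChange (Localization.Away N)).a₄ = algebraMap (𝓞 K) _ W.a₄ := rfl
lemma b6 : (W.baseChange (Localization.Away N)).a₆ = algebraMap (𝓞 K) _ W.a₆ := rfl

/-- from triples to homomorphisms -/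
noncomputable def toHom (t : Tr W N F) : CRN W N →+* F :=
  AdjoinRoot.lift (eval₂RingHom (IsLocalization.Away.lift N (S := Localization.Away N)
    (g := t.1.1) (isUnit_iff_ne_zero.2 t.2.1)) t.1.2.1) t.1.2.2 (by
      rw [eval_poly]
      have e : ∀ a : 𝓞 K, (IsLocalization.Away.lift N (S := Localization.Away N)
        (g := t.1.1) (isUnit_iff_ne_zero.2 t.2.1)) (algebraMap (𝓞 K) (Localization.Away N) a) =
          t.1.1 a := fun a => IsLocalization.Away.lift_eq N _ a
      rw [b1, b2, b3, b4, b6, e, e, e, e, e]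
      linear_combination t.2.2)

lemma toHom_alg (t : Tr W N F) (a : 𝓞 K) :
    toHom W N F t (algebraMap (Localization.Away N) (CRN W N) (algebraMap (𝓞 K) _ a)) = t.1.1 a := by
  have h1 : algebraMap (Localization.Away N) (CRN W N) (algebraMap (𝓞 K) _ a) =
      AdjoinRoot.of _ (C (algebraMap (𝓞 K) (Localization.Away N) a)) := rfl
  rw [h1]
  unfold toHom
  rw [AdjoinRoot.lift_of, coe_eval₂RingHom, eval₂_C]
  exact IsLocalization.Away.lift_eq N _ a

lemma toHom_x (t : Tr W N F) : toHom W N F t (AdjoinRoot.of _ X) = t.1.2.1 := by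
  unfold toHom
  rw [AdjoinRoot.lift_of, coe_eval₂RingHom, eval₂_X]

lemma toHom_y (t : Tr W N F) : toHom W N F t (AdjoinRoot.root _) = t.1.2.2 := by
  unfold toHom
  rw [AdjoinRoot.lift_root]

/-- from homomorphisms to triples -/
noncomputable def ofHom (g : CRN W N →+* F) : Tr W N F :=
  ⟨((g.comp (algebraMap (Localization.Away N) (CRN W N))).comp
      (algebraMap (𝓞 K) (Localization.Away N)), g (AdjoinRoot.of _ X), g (AdjoinRoot.root _)), by
    constructor
    · intro h
      have h1 : IsUnit (algebraMap (𝓞 K) (Localization.Away N) N) :=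
        IsLocalization.Away.algebraMap_isUnit N
      have h2 : IsUnit (((g.comp (algebraMap (Localization.Away N) (CRN W N)))
        (algebraMap (𝓞 K) (Localization.Away N) N))) := h1.map _
      exact h2.ne_zero h
    · have h1 : eval₂ (AdjoinRoot.of _) (AdjoinRoot.root _)
          ((W.baseChange (Localization.Away N)).toAffine.polynomial) = 0 :=
        AdjoinRoot.eval₂_root _
      have h2 := congrArg g h1
      rw [map_zero, hom_eval₂] at h2
      have h3 : g.comp (AdjoinRoot.of ((W.baseChange (Localization.Away N)).toAffine.polynomial)) =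
          eval₂RingHom (g.comp (algebraMap (Localization.Away N) (CRN W N)))
            (g (AdjoinRoot.of _ X)) := by
        apply Polynomial.ringHom_ext
        · intro a
          rw [coe_eval₂RingHom, eval₂_C]
          rfl
        · rw [coe_eval₂RingHom, eval₂_X]
          rfl
      rw [h3, eval_poly] at h2
      rw [b1, b2, b3, b4, b6] at h2
      simp only [RingHom.comp_apply] at h2 ⊢
      linear_combination h2⟩

/-- homomorphisms from the coordinate ring -/
noncomputable def homE : (CRN W N →+* F) ≃ Tr W N F where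
  toFun := ofHom W N F
  invFun := toHom W N F
  left_inv g := by
    have h0 : (toHom W N F (ofHom W N F g)).comp (AdjoinRoot.of _) = g.comp (AdjoinRoot.of _) := by
      apply Polynomial.ringHom_ext'
      · apply IsLocalization.ringHom_ext (Submonoid.powers N)
        ext a
        exact toHom_alg W N F (ofHom W N F g) a
      · exact toHom_x W N F (ofHom W N F g)
    refine Ideal.Quotient.ringHom_ext ?_
    apply Polynomial.ringHom_ext'
    · exact h0
    · exact toHom_y W N F (ofHom W N F g)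
  right_inv t := by
    apply Subtype.ext
    refine Prod.ext ?_ (Prod.ext ?_ ?_)
    · ext a
      exact toHom_alg W N F t a
    · exact toHom_x W N F t
    · exact toHom_y W N F t

lemma finite_hom0 [Finite F] : Finite (𝓞 K →+* F) := by
  obtain ⟨n, hn⟩ := Pool.Agent.Q193.Zeta.bound_ring (𝓞 K)
  exact (hn F).1

lemma finite_tr [Finite F] : Finite (Tr W N F) := by
  have := finite_hom0 (K := K) F
  infer_instance

lemma finite_hom [Finite F] : Finite (CRN W N →+* F) := by
  have := finite_tr W N F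
  exact Finite.of_equiv _ (homE W N F).symm

/-! ### the kernels -/

lemma ker_ne_bot [Finite F] (f : 𝓞 K →+* F) : RingHom.ker f ≠ ⊥ := by
  intro h
  have hi : Function.Injective f := (RingHom.injective_iff_ker_eq_bot f).2 h
  have := Finite.of_injective f hi
  exact not_finite (𝓞 K)

/-- the place of a homomorphism -/
noncomputable def plf [Finite F] (f : 𝓞 K →+* F) : HeightOneSpectrum (𝓞 K) :=
  ⟨RingHom.ker f, RingHom.ker_isPrime f, ker_ne_bot F f⟩

/-- the places not dividing `N` -/
abbrev PN : Type := {v : HeightOneSpectrum (𝓞 K) // N ∉ v.asIdeal}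

/-- the places whose norm has a given power -/
abbrev PE (m : ℕ) : Type := {v : PN N // ∃ e, nm v.1 ^ (e + 1) = m}

lemma finite_PE (m : ℕ) : Finite (PE N m) := by
  have h1 : {I : Ideal (𝓞 K) | Ideal.absNorm I ≤ m}.Finite := Ideal.finite_setOfPred_absNorm_le m
  have := h1.to_subtype
  refine Finite.of_injective (fun v : PE N m => (⟨v.1.1.asIdeal, ?_⟩ :
    {I : Ideal (𝓞 K) | Ideal.absNorm I ≤ m})) ?_
  · obtain ⟨e, he⟩ := v.2
    have h2 : Ideal.absNorm v.1.1.asIdeal = nm v.1.1 := rfl
    show Ideal.absNorm v.1.1.asIdeal ≤ m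
    rw [h2]
    exact (Nat.le_self_pow (Nat.succ_ne_zero e) _).trans he.le
  · intro v w h
    apply Subtype.ext
    apply Subtype.ext
    apply HeightOneSpectrum.ext
    exact congrArg Subtype.val h

lemma nm_eq (v : HeightOneSpectrum (𝓞 K)) : Nat.card (𝓞 K ⧸ v.asIdeal) = nm v :=
  rfl

lemma finite_quo (v : HeightOneSpectrum (𝓞 K)) : Finite (𝓞 K ⧸ v.asIdeal) := by
  refine Nat.finite_of_card_ne_zero ?_
  rw [nm_eq]
  have := two_le_nm v
  omega

/-- the exponent of a homomorphism -/
lemma exp_of [Finite F] (f : 𝓞 K →+* F) : ∃ e, nm (plf F f) ^ (e + 1) = Nat.card F := by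
  have hm : (plf F f).asIdeal.IsMaximal := (plf F f).isMaximal
  let _ : Field (𝓞 K ⧸ (plf F f).asIdeal) := Ideal.Quotient.field _
  obtain ⟨e, he⟩ := Pool.Agent.Q193.Zeta.card_pow_of_hom (k := 𝓞 K ⧸ (plf F f).asIdeal) (K := F)
    (RingHom.kerLift f)
  rw [nm_eq] at he
  exact ⟨e, he⟩

/-- the place of a triple -/
noncomputable def plT [Finite F] (t : Tr W N F) : PE N (Nat.card F) :=
  ⟨⟨plf F t.1.1, fun h => t.2.1 (RingHom.mem_ker.1 h)⟩, exp_of F t.1.1⟩

/-- the homomorphisms with a given kernel -/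
noncomputable def kerQ (v : HeightOneSpectrum (𝓞 K)) :
    {f : 𝓞 K →+* F // RingHom.ker f = v.asIdeal} ≃ (𝓞 K ⧸ v.asIdeal →+* F) where
  toFun f := Ideal.Quotient.lift v.asIdeal f.1 fun a ha => by
    rw [← f.2] at ha
    exact RingHom.mem_ker.1 ha
  invFun g := ⟨g.comp (Ideal.Quotient.mk _), by
    have hm : v.asIdeal.IsMaximal := v.isMaximal
    let _ : Field (𝓞 K ⧸ v.asIdeal) := Ideal.Quotient.field _
    ext a
    rw [RingHom.mem_ker, RingHom.comp_apply, map_eq_zero_iff g g.injective,
      Ideal.Quotient.eq_zero_iff_mem]⟩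
  left_inv f := by
    apply Subtype.ext
    ext a
    rfl
  right_inv g := by
    apply Ideal.Quotient.ringHom_ext
    ext a
    rfl

/-- the triples at a place -/
noncomputable def trE [Finite F] (v : PE N (Nat.card F)) :
    {t : Tr W N F // plT W N F t = v} ≃
      Σ f : {f : 𝓞 K →+* F // RingHom.ker f = v.1.1.asIdeal}, Sol W f.1 where
  toFun t := ⟨⟨t.1.1.1, congrArg (fun w : PE N (Nat.card F) => w.1.1.asIdeal) t.2⟩,
    ⟨t.1.1.2, t.1.2.2⟩⟩
  invFun x := ⟨⟨(x.1.1, x.2.1), fun h => v.1.2 (by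
      rw [← x.1.2]
      exact RingHom.mem_ker.2 h), x.2.2⟩, by
    apply Subtype.ext
    apply Subtype.ext
    apply HeightOneSpectrum.ext
    exact x.1.2⟩
  left_inv t := rfl
  right_inv x := rfl

/-- **the number of the homomorphisms** -/
theorem card_tr [Finite F] (β : HeightOneSpectrum (𝓞 K) → ℂ)
    (hβ : ∀ v, N ∉ v.asIdeal → Frob W v (β v)) [Fintype (PE N (Nat.card F))] :
    (Nat.card (CRN W N →+* F) : ℂ) = ∑ v : PE N (Nat.card F),
      (Nat.card (𝓞 K ⧸ v.1.1.asIdeal →+* F) : ℂ) * (Nat.card F -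
        (β v.1.1 ^ (v.2.choose + 1) + (starRingEnd ℂ) (β v.1.1) ^ (v.2.choose + 1))) := by
  have hf := finite_hom0 (K := K) F
  have ht := finite_tr W N F
  rw [Nat.card_congr (homE W N F), ← Nat.card_congr (Equiv.sigmaFiberEquiv (plT W N F)),
    Nat.card_sigma]
  push_cast
  refine Finset.sum_congr rfl fun v _ => ?_
  have := Fintype.ofFinite {f : 𝓞 K →+* F // RingHom.ker f = v.1.1.asIdeal}
  rw [Nat.card_congr (trE W N F v), Nat.card_sigma]
  push_cast
  rw [Finset.sum_congr rfl fun (f : {f : 𝓞 K →+* F // RingHom.ker f = v.1.1.asIdeal}) _ =>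
    (hβ v.1.1 v.1.2).2 F f.1 (v.2.choose + 1) f.2 v.2.choose_spec.symm, Finset.sum_const,
    nsmul_eq_mul, Finset.card_univ, ← Nat.card_eq_fintype_card, Nat.card_congr (kerQ F v.1.1)]

end homs

end Pool.Agent.D0H69.BS
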