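import Pool.Agent.D0H69.BS.Mer
import Pool.Agent.N883.FG.Lf

/-!
# Project BS: the local data of `y² + D y = x³`
-/

set_option autoImplicit false
set_option linter.unusedSectionVars false

open NumberField IsDedekindDomain
open scoped Classical

namespace Pool.Agent.D0H69.BS

open Pool.Agent.W189.NF (aV eV)
open Pool.Agent.H921R2.TatePole (nm two_le_nm)
open Pool.Agent.Y696.CTK (ED)
open Pool.Agent.N883.DQ (Dt exists_beta IsBeta)
open Pool.Agent.N883.FG

variable {K : Type} [Field K] [NumberField K]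

/-- the integral model -/
def WD (D : 𝓞 K) : WeierstrassCurve (𝓞 K) := ⟨0, 0, D, 0, 0⟩

lemma card_sol (D : 𝓞 K) {F : Type} [Field F] (f : 𝓞 K →+* F) :
    Nat.card (Sol (WD D) f) = Nat.card {p : F × F // p.2 ^ 2 + f D * p.2 = p.1 ^ 3} := by
  refine Nat.card_congr (Equiv.subtypeEquivRight fun p => ?_)
  show p.2 ^ 2 + f 0 * p.1 * p.2 + f D * p.2 = p.1 ^ 3 + f 0 * p.1 ^ 2 + f 0 * p.1 + f 0 ↔ _
  simp only [map_zero, zero_mul, add_zero]

/-- the three coefficients `D, 1, 1` -/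
def co {R : Type} [CommRing R] (D : R) : Fin (2 * 0 + 3) → R := ![D, 1, 1]

lemma co_Dt {R : Type} [CommRing R] (D : R) : Dt (co D) ∅ = D := by
  unfold Dt co
  simp [Fin.prod_univ_succ]

lemma SS_zero : SS 0 = {∅} := by
  unfold SS
  rw [Finset.powersetCard_zero]

/-- the two traces over an extension -/
lemma trace_ext {F : Type} [Field F] [Finite F] {δ : F} (hδ : δ ≠ 0) (h3 : (3 : F) ≠ 0) {x : ℂ}
    (h : ((sols (co δ)).ncard : ℂ) = (Nat.card F - 1) * (1 + Nat.card F - x)) :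
    (Nat.card {p : F × F // p.2 ^ 2 + δ * p.2 = p.1 ^ 3} : ℂ) = Nat.card F - x := by
  have : Fintype F := Fintype.ofFinite F
  obtain ⟨β, -, h1, h2⟩ := exists_beta F h3
  obtain ⟨-, h4⟩ := h1 δ hδ
  have h5 := h2 0 (by norm_num) (co δ) (fun i => by
    unfold co
    fin_cases i <;> simp [hδ]) F
  have e0 : (fun i => algebraMap F F (co δ i)) = co δ := rfl
  rw [e0, Module.finrank_self, Finset.powersetCard_zero, Finset.sum_singleton, co_Dt, pow_zero,
    one_mul, one_mul, pow_one, pow_one] at h5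
  have h6 := sols_ncard (co δ)
  rw [h5, h] at h6
  have hc : (Fintype.card F : ℂ) = Nat.card F := by rw [Nat.card_eq_fintype_card]
  have hne : (Nat.card F : ℂ) - 1 ≠ 0 := by
    have : 1 < Nat.card F := Finite.one_lt_card
    rw [sub_ne_zero]
    exact_mod_cast this.ne'
  have h7 : β δ + (starRingEnd ℂ) (β δ) = x := by
    refine mul_left_cancel₀ hne ?_
    linear_combination h6
  rw [h4, hc]
  linear_combination -h7

/-- **the local data** -/
theorem exists_frob (D : 𝓞 K) (v : HeightOneSpectrum (𝓞 K)) (h : 3 * D ∉ v.asIdeal) :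
    ∃ β : ℂ, Frob (WD D) v β ∧ (aV (ED (D : K)) v : ℂ) = β + (starRingEnd ℂ) β ∧
      (eV (ED (D : K)) v : ℂ) = nm v := by
  have h3 : (3 : 𝓞 K) ∉ v.asIdeal := fun h' => h (Ideal.mul_mem_right _ _ h')
  have hD : D ∉ v.asIdeal := fun h' => h (Ideal.mul_mem_left _ _ h')
  obtain ⟨β, -, h1, h2⟩ := exists_bg v h3
  obtain ⟨b1, b2, b3, -⟩ := h1 D hD
  have hone : (1 : 𝓞 K) ∉ v.asIdeal := fun h' => v.isPrime.ne_top ((Ideal.eq_top_iff_one _).2 h')
  have h5 := h2 0 (by norm_num) (co D) (fun i => by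
    unfold co
    fin_cases i
    · exact hD
    · exact hone
    · exact hone)
  rw [SS_zero, Finset.sum_singleton, co_Dt] at h5
  refine ⟨β D, ⟨b1, fun F _ _ f r hf hF => ?_⟩, b2, b3⟩
  have h6 := h5 F f r hf hF
  rw [two_sum] at h6
  have e0 : (fun i => f (co D i)) = co (f D) := by
    funext i
    unfold co
    fin_cases i
    · rfl
    · exact map_one f
    · exact map_one f
  rw [e0] at h6
  rw [card_sol]
  have hne : ∀ x : 𝓞 K, x ∉ v.asIdeal → f x ≠ 0 := fun x hx h' => hx (by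
    rw [← hf]
    exact RingHom.mem_ker.2 h')
  refine trace_ext (hne D hD) (by
    have := hne 3 h3
    rwa [map_ofNat] at this) ?_
  rw [h6]
  have e1 : ∑ i ∈ Finset.range (2 * 0 + 2), (Nat.card F : ℂ) ^ i = 1 + Nat.card F := by
    simp [Finset.sum_range_succ]
  rw [e1, pow_zero, one_mul, one_mul]

/-- the function of the eigenvalues -/
noncomputable def bt (D : 𝓞 K) (v : HeightOneSpectrum (𝓞 K)) : ℂ :=
  if h : 3 * D ∉ v.asIdeal then (exists_frob D v h).choose else 0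

lemma bt_spec (D : 𝓞 K) (v : HeightOneSpectrum (𝓞 K)) (h : 3 * D ∉ v.asIdeal) :
    Frob (WD D) v (bt D v) ∧ (aV (ED (D : K)) v : ℂ) = bt D v + (starRingEnd ℂ) (bt D v) ∧
      (eV (ED (D : K)) v : ℂ) = nm v := by
  unfold bt
  rw [dif_pos h]
  exact (exists_frob D v h).choose_spec

lemma loc_D {D : 𝓞 K} (hb : ∀ v : HeightOneSpectrum (𝓞 K), 3 * D ∈ v.asIdeal →
    aV (ED (D : K)) v = 0 ∧ eV (ED (D : K)) v = 0) : Loc (ED (D : K)) (3 * D) (bt D) where
  nrm v h := (bt_spec D v h).1.1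
  aV v h := (bt_spec D v h).2.1
  eV v h := (bt_spec D v h).2.2
  bad := hb

end Pool.Agent.D0H69.BS
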