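import Pool.Agent.D0H69.BS.Sum

/-!
# Project BS: the Euler product over the closed points
-/

set_option autoImplicit false
set_option linter.unusedSectionVars false

open NumberField IsDedekindDomain CategoryTheory AlgebraicGeometry Polynomial
open scoped Classical

namespace Pool.Agent.D0H69.BS

open Pool.Agent.H921R2.TatePole (nm two_le_nm nm_summable)
open Pool.Agent.Q193.Zeta (cf Fib card_hom cf_eq_zero exists_field card_pt ptAff finite_fib FP
  one_lt_nm finite_of_closed closed_of_finite cf_zero Pt)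

variable {K : Type} [Field K] [NumberField K] (W : WeierstrassCurve (𝓞 K)) (N : 𝓞 K)

lemma finiteType : Algebra.FiniteType ℤ (CRN W N) := by
  have h1 : Algebra.FiniteType ℤ (𝓞 K) := inferInstance
  have h2 : Algebra.FiniteType (𝓞 K) (Localization.Away N) := inferInstance
  have h3 : Algebra.FiniteType ℤ (Localization.Away N) := Algebra.FiniteType.trans h1 h2
  have h4 : Algebra.FiniteType (Localization.Away N) (CRN W N) := by
    have h5 : Algebra.FiniteType (Localization.Away N) (Localization.Away N)[X] := inferInstance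
    have h6 : Algebra.FiniteType (Localization.Away N)[X] (Localization.Away N)[X][X] :=
      inferInstance
    have h7 : Algebra.FiniteType (Localization.Away N) (Localization.Away N)[X][X] :=
      Algebra.FiniteType.trans h5 h6
    exact Algebra.FiniteType.of_surjective
      (f := Ideal.Quotient.mkₐ (Localization.Away N) _) (Ideal.Quotient.mkₐ_surjective _ _)
  exact Algebra.FiniteType.trans h3 h4

/-- the map to `Spec ℤ` -/
noncomputable def toZ : XN W N ⟶ Spec (CommRingCat.of ℤ) :=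
  Spec.map (CommRingCat.ofHom (Int.castRingHom (CRN W N)))

lemma toZ_ft : LocallyOfFiniteType (toZ W N) := by
  have h := finiteType W N
  unfold toZ
  rw [HasRingHomProperty.Spec_iff (P := @LocallyOfFiniteType)]
  have h1 : (CommRingCat.ofHom (Int.castRingHom (CRN W N))).hom = algebraMap ℤ (CRN W N) :=
    RingHom.ext_int _ _
  rw [h1, RingHom.finiteType_algebraMap]
  exact h

/-- the closed points -/
noncomputable def closedE : {x : XN W N // IsClosed ({x} : Set (XN W N))} ≃ FP (XN W N) :=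
  have := toZ_ft W N
  Equiv.subtypeEquivRight fun _ =>
    ⟨fun h => finite_of_closed (toZ W N) h, fun h => closed_of_finite (toZ W N) h⟩

lemma finite_pt (F : Type) [Field F] [Finite F] : Finite (Pt (XN W N) F) := by
  have := finite_hom W N F
  exact Finite.of_equiv _ (ptAff (CRN W N) F).symm

lemma finite_fibA (m : ℕ) : Finite (Fib (Pool.Agent.Q193.Zeta.nm (XN W N)) m) := by
  by_cases hm : ∃ p n : ℕ, p.Prime ∧ n ≠ 0 ∧ m = p ^ n
  · obtain ⟨p, n, hp, hn, rfl⟩ := hm
    obtain ⟨F, _, _, hF⟩ := exists_field hp hn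
    have := finite_pt W N F
    rw [← hF]
    exact finite_fib (XN W N) F hp hF
  · have := cf_eq_zero (XN W N) hm
    infer_instance

/-- the norms of the places not dividing `N` -/
noncomputable def nq (v : PN N) : ℕ := nm v.1

lemma one_lt_nq (v : PN N) : 1 < nq N v := two_le_nm v.1

lemma nm_pow_prime (v : HeightOneSpectrum (𝓞 K)) : ∃ p n : ℕ, p.Prime ∧ n ≠ 0 ∧ nm v = p ^ n := by
  have hm : v.asIdeal.IsMaximal := v.isMaximal
  let _ : Field (𝓞 K ⧸ v.asIdeal) := Ideal.Quotient.field _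
  have := finite_quo v
  have : Fintype (𝓞 K ⧸ v.asIdeal) := Fintype.ofFinite _
  obtain ⟨p, _, n, h1, h2⟩ := FiniteField.card' (𝓞 K ⧸ v.asIdeal)
  refine ⟨p, n, h1, n.ne_zero, ?_⟩
  rw [← nm_eq, Nat.card_eq_fintype_card, h2]

lemma fib_empty {m : ℕ} (hm : ¬ ∃ p n : ℕ, p.Prime ∧ n ≠ 0 ∧ m = p ^ n) :
    IsEmpty (Fib (nq N) m) := by
  refine ⟨fun j => hm ?_⟩
  obtain ⟨⟨v, e⟩, h⟩ := j
  obtain ⟨p, n, h1, h2, h3⟩ := nm_pow_prime v.1
  refine ⟨p, n * (e + 1), h1, mul_ne_zero h2 (Nat.succ_ne_zero e), ?_⟩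
  rw [← h]
  unfold nq
  rw [h3, pow_mul]

lemma exp_unique {m : ℕ} (v : PN N) {e e' : ℕ} (h : nm v.1 ^ (e + 1) = m)
    (h' : nm v.1 ^ (e' + 1) = m) : e = e' := by
  have h1 := Nat.pow_right_injective (two_le_nm v.1) (h.trans h'.symm)
  omega

/-- places and exponents -/
noncomputable def fibE (m : ℕ) : PE N m ≃ Fib (nq N) m where
  toFun v := ⟨(v.1, v.2.choose), v.2.choose_spec⟩
  invFun j := ⟨j.1.1, j.1.2, j.2⟩
  left_inv v := rfl
  right_inv j := by
    obtain ⟨⟨x, e⟩, h⟩ := j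
    refine Subtype.ext (Prod.ext rfl ?_)
    exact exp_unique N x (Exists.choose_spec (⟨e, h⟩ : ∃ e, nm x.1 ^ (e + 1) = m)) h

variable (β : HeightOneSpectrum (𝓞 K) → ℂ) (hβ : ∀ v, N ∉ v.asIdeal → Frob W v (β v))

include hβ

/-- the coefficients of the logarithm of the zeta function -/
theorem cf_prime {p n : ℕ} (hp : p.Prime) (hn : n ≠ 0) (F : Type) [Field F] [Finite F]
    (hF : Nat.card F = p ^ n) [Fintype (PE N (Nat.card F))] :
    (cf (Pool.Agent.Q193.Zeta.nm (XN W N)) (Nat.card F) : ℂ) = ∑ v : PE N (Nat.card F),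
      ((Nat.card F : ℂ) -
        (β v.1.1 ^ (v.2.choose + 1) + (starRingEnd ℂ) (β v.1.1) ^ (v.2.choose + 1))) /
        ((v.2.choose : ℂ) + 1) := by
  have := finite_pt W N F
  have h1 := card_pt (XN W N) F hp hF
  have h2 : Nat.card (Pt (XN W N) F) = Nat.card (CRN W N →+* F) :=
    Nat.card_congr (ptAff (CRN W N) F)
  have h3 := card_tr W N F β hβ
  rw [h2] at h1
  have h4 : (n : ℂ) * (cf (Pool.Agent.Q193.Zeta.nm (XN W N)) (Nat.card F) : ℂ) =
      (Nat.card (CRN W N →+* F) : ℂ) := by exact_mod_cast congrArg (fun x : ℝ => (x : ℂ)) h1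
  rw [h3] at h4
  have hn0 : (n : ℂ) ≠ 0 := by exact_mod_cast hn
  refine mul_left_cancel₀ hn0 ?_
  rw [h4, Finset.mul_sum]
  refine Finset.sum_congr rfl fun v _ => ?_
  have hm : v.1.1.asIdeal.IsMaximal := v.1.1.isMaximal
  let _ : Field (𝓞 K ⧸ v.1.1.asIdeal) := Ideal.Quotient.field _
  have := finite_quo v.1.1
  have h5 := card_hom (k := 𝓞 K ⧸ v.1.1.asIdeal) (K := F) hp hF (e := v.2.choose) (by
    rw [nm_eq]
    exact v.2.choose_spec)
  have h6 : (n : ℂ) = ((v.2.choose : ℂ) + 1) * (Nat.card (𝓞 K ⧸ v.1.1.asIdeal →+* F) : ℂ) := by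
    rw [← h5]
    push_cast
    rfl
  have h7 : ((v.2.choose : ℂ) + 1) ≠ 0 := Nat.cast_add_one_ne_zero _
  rw [h6]
  field_simp

/-- the sums over the fibres -/
theorem fib_sum (s : ℂ) (m : ℕ) :
    HasSum (fun j : Fib (nq N) m => tw (nq N) (fun v => β v.1) s j.1)
      (LSeries.term (fun m => (cf (Pool.Agent.Q193.Zeta.nm (XN W N)) m : ℂ)) s m) := by
  by_cases hm : ∃ p n : ℕ, p.Prime ∧ n ≠ 0 ∧ m = p ^ n
  · obtain ⟨p, n, hp, hn, rfl⟩ := hm
    obtain ⟨F, _, _, hF⟩ := exists_field hp hn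
    rw [← hF]
    have hc : Nat.card F ≠ 0 := Nat.card_pos.ne'
    have hfin := finite_PE N (Nat.card F)
    have : Fintype (PE N (Nat.card F)) := Fintype.ofFinite _
    rw [LSeries.term_of_ne_zero hc, cf_prime W N β hβ hp hn F hF, Finset.sum_div]
    rw [← (fibE N (Nat.card F)).hasSum_iff]
    have h1 := hasSum_fintype (fun v : PE N (Nat.card F) => ((Nat.card F : ℂ) -
        (β v.1.1 ^ (v.2.choose + 1) + (starRingEnd ℂ) (β v.1.1) ^ (v.2.choose + 1))) /
        ((v.2.choose : ℂ) + 1) / (Nat.card F : ℂ) ^ s)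
    refine h1.congr_fun fun v => ?_
    have h2 : ((nq N v.1 : ℂ)) ^ (v.2.choose + 1) = Nat.card F := by
      have := v.2.choose_spec
      unfold nq
      exact_mod_cast this
    show tw (nq N) (fun v => β v.1) s (v.1, v.2.choose) = _
    unfold tw
    simp only
    have h3 : ((nq N v.1 : ℂ) ^ (-s)) ^ (v.2.choose + 1) = (Nat.card F : ℂ) ^ (-s) := by
      rw [← Complex.cpow_nat_mul, Complex.natCast_cpow_natCast_mul, h2]
    rw [h2, h3, Complex.cpow_neg]
    ring
  · have h1 := fib_empty N hm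
    have h2 := cf_eq_zero (XN W N) hm
    have h3 : cf (Pool.Agent.Q193.Zeta.nm (XN W N)) m = 0 := by rw [cf, tsum_empty]
    have h4 : LSeries.term (fun m => (cf (Pool.Agent.Q193.Zeta.nm (XN W N)) m : ℂ)) s m = 0 := by
      rw [LSeries.term_def]
      split_ifs
      · rfl
      · rw [h3]
        simp
    rw [h4]
    exact hasSum_empty

/-- **the Euler product** -/
theorem ep_main {s : ℂ} (hs : 2 < s.re) :
    Multipliable (fun x : {x : XN W N // IsClosed ({x} : Set (XN W N))} =>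
      (1 - ((Nat.card ((XN W N).residueField x.1) : ℂ) ^ (-s)))⁻¹) ∧
    HasProd (fun v : {v : HeightOneSpectrum (𝓞 K) // N ∉ v.asIdeal} =>
      (1 - (nm v.1 : ℂ) ^ (1 - s))⁻¹ * (1 - β v.1 * (nm v.1 : ℂ) ^ (-s)) *
        (1 - (starRingEnd ℂ) (β v.1) * (nm v.1 : ℂ) ^ (-s)))
      (Pool.Agent.Q193.Zeta.zeta (XN W N) s) := by
  have hq := one_lt_nq N
  have hb : ∀ v : PN N, β v.1 * (starRingEnd ℂ) (β v.1) = nq N v := fun v => (hβ v.1 v.2).1
  have hsum : Summable fun v : PN N => (nq N v : ℝ) ^ (-(s.re - 1)) :=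
    (nm_summable (K := K) (x := s.re - 1) (by linarith)).comp_injective Subtype.val_injective
  have h1 := (summable_tw (β := fun v : PN N => β v.1) hq hb hs hsum).hasSum
  rw [← (Equiv.sigmaFiberEquiv fun j : PN N × ℕ => nq N j.1 ^ (j.2 + 1)).hasSum_iff] at h1
  have h2 : HasSum (fun m => LSeries.term
      (fun m => (cf (Pool.Agent.Q193.Zeta.nm (XN W N)) m : ℂ)) s m)
      (∑' j, tw (nq N) (fun v => β v.1) s j) := h1.sigma fun m => fib_sum W N β hβ s m
  have h3 := euler' (one_lt_nm (XN W N)) (finite_fibA W N) h2.summable (by linarith)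
  have h4 : LSeries (fun m => (cf (Pool.Agent.Q193.Zeta.nm (XN W N)) m : ℂ)) s =
      ∑' j, tw (nq N) (fun v => β v.1) s j := h2.tsum_eq
  rw [h4] at h3
  have h5 : HasProd (fun x : {x : XN W N // IsClosed ({x} : Set (XN W N))} =>
      (1 - ((Nat.card ((XN W N).residueField x.1) : ℂ) ^ (-s)))⁻¹)
      (Complex.exp (∑' j, tw (nq N) (fun v => β v.1) s j)) :=
    (closedE W N).hasProd_iff.2 h3
  refine ⟨h5.multipliable, ?_⟩
  have h6 : Pool.Agent.Q193.Zeta.zeta (XN W N) s =
      Complex.exp (∑' j, tw (nq N) (fun v => β v.1) s j) := h5.tprod_eq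
  rw [h6]
  exact prod_tw hq hb hs hsum

omit hβ in
theorem ep : S_EP := fun _ _ _ W N _ β hβ _ hs => ep_main W N β hβ hs

end Pool.Agent.D0H69.BS
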