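import Pool.Agent.D0H69.BS.Bad
import Pool.Agent.D0H84.BS.Pic
import Pool.Agent.D0H17.BS.Rk
import Pool.Agent.D0H17.BS.Un
import Pool.Agent.D0H25.BS.Zk
import Pool.Agent.D0H69.L0F.End

/-!
# Project BS: the formula of Bloch and Soulé for the surfaces `y² + D y = x³` over `ℤ[ω, 1 / (3 D)]`

The Picard group: helper84 (`Pool.Agent.D0H84.BS.pic`).  The units: helper17 (`Pool.Agent.D0H17.BS.un`,
`rk`).  The zeta function of the base: helper25 (`Pool.Agent.D0H25.BS.zk`).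
-/

set_option autoImplicit false
set_option linter.unusedVariables false
set_option linter.unusedSectionVars false

open NumberField IsDedekindDomain CategoryTheory AlgebraicGeometry
open scoped Classical

namespace Pool.Agent.D0H69.BS

open Pool.Agent.W189.NF (aV eV)
open Pool.Agent.H921R2.TatePole (nm two_le_nm)
open Pool.Agent.Y692.QS (Ei w nr toC nr_mul)
open Pool.Agent.Y696.CTK (Tri ED)
open Pool.Agent.Y696.XK (RkZ finrank_fin)
open Pool.Agent.R419.KF (EntL)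
open Pool.Agent.D0H10.KH

/-- the zeta function of a scheme -/
def IsZ (S : Scheme.{0}) (F : ℂ → ℂ) : Prop :=
  MeromorphicOn F Set.univ ∧ ∀ s : ℂ, 2 < s.re →
    Multipliable (fun x : {x : S // IsClosed ({x} : Set S)} =>
      (1 - ((Nat.card (S.residueField x.1) : ℂ) ^ (-s)))⁻¹) ∧
    F s = ∏' x : {x : S // IsClosed ({x} : Set S)},
      (1 - ((Nat.card (S.residueField x.1) : ℂ) ^ (-s)))⁻¹

/-- two meromorphic functions that agree in a half-plane have the same orders -/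
lemma order_unique {F G : ℂ → ℂ} (hF : MeromorphicOn F Set.univ) (hG : MeromorphicOn G Set.univ)
    {σ : ℝ} (h : ∀ s : ℂ, σ < s.re → F s = G s) (s : ℂ) :
    meromorphicOrderAt F s = meromorphicOrderAt G s := by
  have hH : MeromorphicOn (F - G) Set.univ := hF.sub hG
  have h0 : meromorphicOrderAt (F - G) ((σ + 1 : ℝ) : ℂ) = ⊤ := by
    rw [meromorphicOrderAt_eq_top_iff]
    have ho : IsOpen {s : ℂ | σ < s.re} := isOpen_lt continuous_const Complex.continuous_re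
    have hm : ((σ + 1 : ℝ) : ℂ) ∈ {s : ℂ | σ < s.re} := by
      show σ < (((σ + 1 : ℝ) : ℂ)).re
      rw [Complex.ofReal_re]
      linarith
    filter_upwards [nhdsWithin_le_nhds (ho.mem_nhds hm)] with z hz
    have hz' : σ < z.re := hz
    rw [Pi.sub_apply, h z hz', sub_self]
  have h1 : meromorphicOrderAt (F - G) s = ⊤ := by
    by_contra hs
    exact hH.meromorphicOrderAt_ne_top_of_isPreconnected isPreconnected_univ (Set.mem_univ s)
      (Set.mem_univ _) hs h0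
  rw [meromorphicOrderAt_eq_top_iff] at h1
  refine meromorphicOrderAt_congr ?_
  filter_upwards [h1] with z hz
  exact sub_eq_zero.1 hz

variable {K : Type} [Field K] [NumberField K]

section cyc
variable [IsCyclotomicExtension {3} ℚ K]

lemma rank_zero : Units.rank K = 0 := by
  dsimp only [Units.rank]
  rw [InfinitePlace.card_eq_nrRealPlaces_add_nrComplexPlaces,
    IsCyclotomicExtension.Rat.nrRealPlaces_eq_zero (n := 3) K (by decide),
    zero_add, IsCyclotomicExtension.Rat.nrComplexPlaces_eq_totient_div_two (n := 3)]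
  rfl

lemma zetaK : ∃ Z : ℂ → ℂ, ZetaK K Z := by
  have h2 : Module.finrank ℚ K = 2 := by
    rw [IsCyclotomicExtension.finrank (n := 3) K (Polynomial.cyclotomic.irreducible_rat (by norm_num))]
    decide
  obtain ⟨ζ, hζ⟩ := IsCyclotomicExtension.exists_isPrimitiveRoot (S := {3}) ℚ K
    (Set.mem_singleton 3) (by norm_num)
  have h3 : ζ ^ 2 + ζ + 1 = 0 := by
    have h4 : (ζ - 1) * (ζ ^ 2 + ζ + 1) = 0 := by
      have := hζ.pow_eq_one
      linear_combination this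
    rcases mul_eq_zero.1 h4 with h | h
    · exact absurd (sub_eq_zero.1 h) (hζ.ne_one (by norm_num))
    · exact h
  obtain ⟨Z, z1, z2, z3, z4, z5⟩ := Pool.Agent.D0H25.BS.zk K h2 (-3) (2 * ζ + 1) (by
    push_cast
    linear_combination 4 * h3) (by norm_num)
  exact ⟨Z, z1, z2, z3, z4, z5⟩

end cyc

/-- the equality of the two ways of writing the curve -/
lemma ED_eq (D : 𝓞 K) : ((WD D).baseChange K : WeierstrassCurve K) = ED (D : K) := by
  unfold WD ED WeierstrassCurve.baseChange WeierstrassCurve.map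
  simp

lemma WD_disc (D : 𝓞 K) : (WD D).Δ = -27 * D ^ 4 := by
  unfold WD WeierstrassCurve.Δ WeierstrassCurve.b₂ WeierstrassCurve.b₄ WeierstrassCurve.b₆
    WeierstrassCurve.b₈
  ring

/-- the surface is smooth -/
lemma disc_unit (D : 𝓞 K) :
    ((WD D).baseChange (Localization.Away (3 * D))).IsElliptic := by
  refine ⟨?_⟩
  have h1 : IsUnit (algebraMap (𝓞 K) (Localization.Away (3 * D)) (3 * D)) :=
    IsLocalization.Away.algebraMap_isUnit (3 * D)
  rw [map_mul] at h1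
  have h3 := isUnit_of_mul_isUnit_left h1
  have hD := isUnit_of_mul_isUnit_right h1
  show IsUnit ((WD D).map (algebraMap (𝓞 K) (Localization.Away (3 * D)))).Δ
  rw [WeierstrassCurve.map_Δ, WD_disc, map_mul, map_neg, map_pow, map_ofNat]
  rw [map_ofNat] at h3
  have h4 : (27 : Localization.Away (3 * D)) = 3 ^ 3 := by norm_num
  rw [h4]
  exact ((h3.pow 3).neg).mul (hD.pow 4)

/-- the meromorphic continuation -/
theorem exists_zeta [IsCyclotomicExtension {3} ℚ K] {D : 𝓞 K} (hD0 : D ≠ 0)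
    (hbad : ∀ v : HeightOneSpectrum (𝓞 K), 3 * D ∈ v.asIdeal →
      aV (ED (D : K)) v = 0 ∧ eV (ED (D : K)) v = 0)
    {G : ℂ → ℂ} (hG : Differentiable ℂ G)
    (hGs : ∀ s : ℂ, 3 / 2 < s.re → G s = (ED (D : K)).LSeries s) :
    ∃ F : ℂ → ℂ, IsZ (XN (WD D) (3 * D)) F ∧
      (G 1 ≠ 0 → meromorphicOrderAt F 1 =
        (({v : HeightOneSpectrum (𝓞 K) | 3 * D ∈ v.asIdeal}.ncard : ℤ) : WithTop ℤ)) ∧
      meromorphicOrderAt F 2 = ((-1 : ℤ) : WithTop ℤ) ∧
      ∀ m : ℕ, 3 ≤ m → meromorphicOrderAt F (m : ℂ) = 0 := by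
  obtain ⟨Z, hZ⟩ := zetaK (K := K)
  have h3 : (3 : 𝓞 K) ≠ 0 := by norm_num
  obtain ⟨F, f1, f2, f3, f4, f5⟩ := zeta_mer (mul_ne_zero h3 hD0)
    (fun v hv => (bt_spec D v hv).1) (loc_D hbad) hZ hG hGs
  exact ⟨F, ⟨f1, fun s hs => f2 s hs⟩, f3, f4, f5⟩

/-- the formula -/
def BSF (D : 𝓞 K) : Prop :=
  ∃ u p : ℕ, Module.rank ℤ (Additive (CRN (WD D) (3 * D))ˣ) = u ∧
    Module.rank ℤ (Additive (CommRing.Pic (CRN (WD D) (3 * D)))) = p ∧
    ∀ F : ℂ → ℂ, IsZ (XN (WD D) (3 * D)) F →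
      meromorphicOrderAt F 1 = (((u : ℤ) - (p : ℤ) : ℤ) : WithTop ℤ) ∧
      meromorphicOrderAt F 2 = ((-1 : ℤ) : WithTop ℤ) ∧
      ∀ m : ℕ, 3 ≤ m → meromorphicOrderAt F (m : ℂ) = 0

lemma entire_one {D : 𝓞 K} (hr : RkZ (ED (D : K))) {G : ℂ → ℂ} (hG : Differentiable ℂ G)
    (hGs : ∀ s : ℂ, 3 / 2 < s.re → G s = (ED (D : K)).LSeries s) : G 1 ≠ 0 := by
  obtain ⟨-, h6, U, Lf, u1, u2, u3, u4, u5, u6, u7, u8⟩ := hr
  rw [finrank_fin, iteratedDeriv_zero] at u8
  have hGa : AnalyticOnNhd ℂ G U := fun s _ => hG.analyticAt s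
  have h2 : (2 : ℂ) ∈ U := u3 (by
    show (3 / 2 : ℝ) < (2 : ℂ).re
    norm_num)
  have he : G =ᶠ[nhds 2] Lf := by
    have ho : IsOpen {s : ℂ | (3 / 2 : ℝ) < s.re} := isOpen_lt continuous_const Complex.continuous_re
    have hm : (2 : ℂ) ∈ {s : ℂ | (3 / 2 : ℝ) < s.re} := by
      show (3 / 2 : ℝ) < (2 : ℂ).re
      norm_num
    filter_upwards [ho.mem_nhds hm] with z hz
    rw [hGs z hz, u6 z hz]
  have := hGa.eqOn_of_preconnected_of_eventuallyEq u5 u2.isPreconnected h2 he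
  rw [this u4]
  exact u8

lemma pid_loc {R : Type} (L : Type) [CommRing R] [IsPrincipalIdealRing R] [CommRing L]
    [Algebra R L] (M : Submonoid R) [IsLocalization M L] : IsPrincipalIdealRing L := by
  refine ⟨fun J => ?_⟩
  obtain ⟨a, ha⟩ := (IsPrincipalIdealRing.principal (J.comap (algebraMap R L))).principal
  refine ⟨⟨algebraMap R L a, ?_⟩⟩
  have h1 : Ideal.map (algebraMap R L) (J.comap (algebraMap R L)) = J :=
    IsLocalization.map_under M L J
  rw [← h1, ha]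
  exact (Ideal.map_span _ _).trans (by rw [Set.image_singleton])

lemma rank_fin (G : Type*) [AddCommGroup G] [Finite G] : Module.rank ℤ G = 0 := by
  rw [rank_eq_zero_iff]
  intro x
  refine ⟨(Nat.card G : ℤ), ?_, ?_⟩
  · exact_mod_cast Nat.card_pos.ne'
  · rw [natCast_zsmul, card_nsmul_eq_zero']

/-- the Picard group -/
theorem fin_pic {N D : 𝓞 K} (hN : N ≠ 0) [IsPrincipalIdealRing (𝓞 K)]
    (hW : ((WD D).baseChange (Localization.Away N)).IsElliptic)
    (hfin : Finite (ED (D : K)).toAffine.Point) :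
    ∃ _ : IsDomain (CRN (WD D) N), Finite (CommRing.Pic (CRN (WD D) N)) := by
  have hle : Submonoid.powers N ≤ nonZeroDivisors (𝓞 K) :=
    powers_le_nonZeroDivisors_of_noZeroDivisors hN
  have hdom : IsDomain (Localization.Away N) := IsLocalization.isDomain_localization hle
  have hpid : IsPrincipalIdealRing (Localization.Away N) := pid_loc _ (Submonoid.powers N)
  have hun : ∀ y : Submonoid.powers N, IsUnit (algebraMap (𝓞 K) K y) := by
    rintro ⟨y, hy⟩
    refine isUnit_iff_ne_zero.2 fun h => ?_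
    have h1 : y = 0 := (map_eq_zero_iff _ (FaithfulSMul.algebraMap_injective (𝓞 K) K)).1 h
    exact nonZeroDivisors.ne_zero (hle hy) h1
  let _ : Algebra (Localization.Away N) K :=
    (IsLocalization.lift (M := Submonoid.powers N) hun).toAlgebra
  have hcomp : (algebraMap (Localization.Away N) K).comp (algebraMap (𝓞 K) (Localization.Away N)) =
      algebraMap (𝓞 K) K := IsLocalization.lift_comp hun
  have : IsScalarTower (𝓞 K) (Localization.Away N) K := IsScalarTower.of_algebraMap_eq' hcomp.symm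
  have : IsFractionRing (Localization.Away N) K :=
    IsFractionRing.isFractionRing_of_isDomain_of_isLocalization (Submonoid.powers N)
      (Localization.Away N) K
  have e1 : (((WD D).baseChange (Localization.Away N)).baseChange K : WeierstrassCurve K) =
      ED (D : K) := by
    rw [← ED_eq]
    show ((WD D).map (algebraMap (𝓞 K) (Localization.Away N))).map
      (algebraMap (Localization.Away N) K) = (WD D).map (algebraMap (𝓞 K) K)
    rw [WeierstrassCurve.map_map, hcomp]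
  obtain ⟨hd, hf⟩ := Pool.Agent.D0H84.BS.pic (Localization.Away N) K
    ((WD D).baseChange (Localization.Away N)) hW.isUnit.ne_zero (by rw [e1]; exact hfin)
  exact ⟨hd, Finite.of_equiv _ (ClassGroup.equivPic _).toEquiv⟩

/-- the units -/
theorem rank_units {N D : 𝓞 K} (hN : N ≠ 0) [IsPrincipalIdealRing (𝓞 K)] (h0 : Units.rank K = 0)
    (h1 : {v : HeightOneSpectrum (𝓞 K) | N ∈ v.asIdeal}.ncard ≠ 0) :
    Module.rank ℤ (Additive (CRN (WD D) N)ˣ) =
        {v : HeightOneSpectrum (𝓞 K) | N ∈ v.asIdeal}.ncard := by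
  have hle : Submonoid.powers N ≤ nonZeroDivisors (𝓞 K) :=
    powers_le_nonZeroDivisors_of_noZeroDivisors hN
  have hdom : IsDomain (Localization.Away N) := IsLocalization.isDomain_localization hle
  have h2 := Pool.Agent.D0H17.BS.rk K N hN
  rw [h0, zero_add] at h2
  have h3 : Module.rank ℤ (Additive (Localization.Away N)ˣ) =
      {v : HeightOneSpectrum (𝓞 K) | N ∈ v.asIdeal}.ncard :=
    (Cardinal.toNat_eq_iff h1).1 h2
  rw [← h3]
  have h4 := Pool.Agent.D0H17.BS.un (Localization.Away N) ((WD D).baseChange (Localization.Away N))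
  exact ((MulEquiv.ofBijective _ h4).toAdditive.toIntLinearEquiv.rank_eq).symm

/-- **the surfaces** -/
theorem main [IsCyclotomicExtension {3} ℚ K] (j : Ei ≃+* 𝓞 K)
    (hj : ∀ z : Ei, Algebra.norm ℤ (j z) = nr z) {D : 𝓞 K} (hD : FamH D) :
    IsDomain (CRN (WD D) (3 * D)) ∧
    (∃ F : ℂ → ℂ, IsZ (XN (WD D) (3 * D)) F) ∧
    (Tri D → Finite (CommRing.Pic (CRN (WD D) (3 * D))) ∧
      Module.rank ℤ (Additive (CRN (WD D) (3 * D))ˣ) =
        {v : HeightOneSpectrum (𝓞 K) | 3 * D ∈ v.asIdeal}.ncard ∧ BSF D) := by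
  have hD0 : D ≠ 0 := by
    obtain ⟨D, rfl⟩ := j.surjective D
    obtain ⟨b, a, z, ha, hz, rfl⟩ := dec ((famH_iff j D).1 hD)
    obtain ⟨i, n, π, e, hdt, rfl⟩ := Pool.Agent.N883.FF.fam_data hz
    have := ne_D hdt i b a
    rw [Ne, map_eq_zero_iff j j.injective]
    exact this
  obtain ⟨⟨G, hG, hGs⟩, hR⟩ := Pool.Agent.D0H69.L0F.factsAll j hj hD
  have hbad : ∀ v : HeightOneSpectrum (𝓞 K), 3 * D ∈ v.asIdeal →
      aV (ED (D : K)) v = 0 ∧ eV (ED (D : K)) v = 0 := fun v hv => bad_fam j hD hv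
  have hGs' := fun s hs => (hGs s hs).2
  obtain ⟨F, hF, f1, f2, f3⟩ := exists_zeta hD0 hbad hG hGs'
  have h3 : (3 : 𝓞 K) ≠ 0 := by norm_num
  have hN : 3 * D ≠ 0 := mul_ne_zero h3 hD0
  have : IsPrincipalIdealRing (𝓞 K) := IsCyclotomicExtension.Rat.three_pid K
  have hle : Submonoid.powers (3 * D) ≤ nonZeroDivisors (𝓞 K) :=
    powers_le_nonZeroDivisors_of_noZeroDivisors hN
  have hdom : IsDomain (Localization.Away (3 * D)) := IsLocalization.isDomain_localization hle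
  refine ⟨inferInstance, ⟨F, hF⟩, fun ht => ?_⟩
  obtain ⟨hd, hp⟩ := fin_pic hN (disc_unit D) ht.1
  have h1 : {v : HeightOneSpectrum (𝓞 K) | 3 * D ∈ v.asIdeal}.ncard ≠ 0 := by
    intro h0
    rw [Set.ncard_eq_zero (fin_S hN)] at h0
    have hu : ¬ IsUnit (3 * D : 𝓞 K) := by
      intro hu
      have := isUnit_of_mul_isUnit_right hu
      exact hD.1 (this.dvd)
    obtain ⟨M, hM, hle⟩ := Ideal.exists_le_maximal (Ideal.span {3 * D}) (by
      rwa [Ne, Ideal.span_singleton_eq_top])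
    have hm : 3 * D ∈ M := hle (Ideal.mem_span_singleton_self _)
    have hne : M ≠ ⊥ := fun h => hN (by rw [h] at hm; exact hm)
    have : (⟨M, hM.isPrime, hne⟩ : HeightOneSpectrum (𝓞 K)) ∈
        {v : HeightOneSpectrum (𝓞 K) | 3 * D ∈ v.asIdeal} := hm
    rw [h0] at this
    exact this
  have h2 := rank_units (D := D) hN rank_zero h1
  refine ⟨hp, h2, _, 0, h2, ?_, fun F' hF' => ?_⟩
  · rw [rank_fin, Nat.cast_zero]
  · have hu : ∀ s : ℂ, meromorphicOrderAt F' s = meromorphicOrderAt F s :=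
      order_unique hF'.1 hF.1 (σ := 2) fun s hs => by rw [(hF'.2 s hs).2, (hF.2 s hs).2]
    rw [hu, hu, f1 (entire_one (hR ht) hG hGs'), f2, Nat.cast_zero, sub_zero]
    exact ⟨rfl, rfl, fun m hm => by rw [hu, f3 m hm]⟩

open Filter in
/-- **the final statement** -/
theorem final (K : Type) [Field K] [NumberField K] [IsCyclotomicExtension {3} ℚ K] :
    (∃ c : ℝ, 0 < c ∧ ∃ X₀ : ℕ, ∀ X : ℕ, X₀ ≤ X →
      c * X ≤ ({D : 𝓞 K | Algebra.norm ℤ D ≤ X ∧ FamH D}.ncard : ℝ)) ∧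
    (∀ D : 𝓞 K, FamH D →
      ((WD D).baseChange (Localization.Away (3 * D))).IsElliptic ∧
      IsDomain (CRN (WD D) (3 * D)) ∧
      (∃ F : ℂ → ℂ, IsZ (XN (WD D) (3 * D)) F) ∧
      (Tri D → BSF D ∧ Finite (CommRing.Pic (CRN (WD D) (3 * D))) ∧
        Module.rank ℤ (Additive (CRN (WD D) (3 * D))ˣ) =
          {v : HeightOneSpectrum (𝓞 K) | 3 * D ∈ v.asIdeal}.ncard)) ∧
    Tendsto (fun X : ℕ =>
      ({D : 𝓞 K | Algebra.norm ℤ D ≤ X ∧ FamH D ∧ Tri D}.ncard : ℝ) /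
        ({D : 𝓞 K | Algebra.norm ℤ D ≤ X ∧ FamH D}.ncard : ℝ)) atTop
      (nhds (∏' i : ℕ, (1 - (1 / 3 : ℝ) ^ (2 * i + 1)))) ∧
    (∀ a : ℕ, a < 3 → Tendsto (fun X : ℕ =>
      ({D : 𝓞 K | Algebra.norm ℤ D ≤ X ∧ FamH D ∧ ExtH a D ∧ Tri D}.ncard : ℝ) /
        ({D : 𝓞 K | Algebra.norm ℤ D ≤ X ∧ FamH D ∧ ExtH a D}.ncard : ℝ)) atTop
      (nhds (∏' i : ℕ, (1 - (1 / 3 : ℝ) ^ (2 * i + 1))))) ∧
    (∀ᶠ X : ℕ in atTop,
      0.639 * ({D : 𝓞 K | Algebra.norm ℤ D ≤ X ∧ FamH D}.ncard : ℝ) <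
        ({D : 𝓞 K | Algebra.norm ℤ D ≤ X ∧ FamH D ∧ BSF D}.ncard : ℝ)) := by
  obtain ⟨⟨j, hj⟩, -⟩ := Pool.Agent.Y455.CTK.jex K
  obtain ⟨⟨c, hc, X₀, hX₀⟩, -, h3, h4, -, h6⟩ := Pool.Agent.D0H69.L0F.finalAll K
  have hm : ∀ D : 𝓞 K, FamH D → _ := fun D hD => main j hj hD
  refine ⟨⟨c, hc, X₀, hX₀⟩, fun D hD => ⟨disc_unit D, (hm D hD).1, (hm D hD).2.1, fun ht => ?_⟩,
    h3, h4, ?_⟩
  · obtain ⟨a1, a2, a3⟩ := (hm D hD).2.2 ht
    exact ⟨a3, a1, a2⟩
  · have hfin : ∀ X : ℕ, {D : 𝓞 K | Algebra.norm ℤ D ≤ X ∧ FamH D ∧ BSF D}.Finite := by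
      intro X
      have h5 := (Pool.Agent.N883.FF.fin_nr X).image j
      refine h5.subset ?_
      rintro D ⟨hD, -⟩
      obtain ⟨z, rfl⟩ := j.surjective D
      rw [hj] at hD
      exact ⟨z, hD, rfl⟩
    filter_upwards [(tendsto_order.1 h3).1 _ h6, eventually_ge_atTop (max X₀ 1)] with X hX hX1
    have h7 := hX₀ X (le_trans (le_max_left _ _) hX1)
    have h8 : (1 : ℝ) ≤ X := by exact_mod_cast le_trans (le_max_right _ _) hX1
    have h9 : (0 : ℝ) < ({D : 𝓞 K | Algebra.norm ℤ D ≤ X ∧ FamH D}.ncard : ℝ) :=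
      lt_of_lt_of_le (mul_pos hc (by linarith)) h7
    rw [lt_div_iff₀ h9] at hX
    refine lt_of_lt_of_le hX ?_
    have hsub : {D : 𝓞 K | Algebra.norm ℤ D ≤ X ∧ FamH D ∧ Tri D} ⊆
        {D : 𝓞 K | Algebra.norm ℤ D ≤ X ∧ FamH D ∧ BSF D} := fun D hD =>
      ⟨hD.1, hD.2.1, ((hm D hD.2.1).2.2 hD.2.2).2.2⟩
    exact_mod_cast Set.ncard_le_ncard hsub (hfin X)

end Pool.Agent.D0H69.BS
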