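import Pool.Agent.D0H69.BS.MerF
import Pool.Agent.D0H69.BS.Fin
import Pool.Agent.D0H69.UC.Lof
import Pool.Agent.D0H76.BS.Rka
import Pool.Agent.D0H76.BS.Pica

/-!
# The formula of Bloch and Soulé for the surfaces `y² + D y = x³` over all Kummer extensions
-/

set_option autoImplicit false
set_option linter.unusedVariables false
set_option linter.unusedSectionVars false

open NumberField IsDedekindDomain CategoryTheory AlgebraicGeometry Filter
open scoped Classical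

namespace Pool.Agent.D0H69.BS

open Pool.Agent.W189.NF (aV eV LSeries_hasProd)
open Pool.Agent.H921R2.TatePole (nm two_le_nm)
open Pool.Agent.Y696.CTK (Tri ED)
open Pool.Agent.Y703.XK (c9)
open Pool.Agent.D0H10.KH (FamH ExtH)
open Pool.Agent.D0H69.JTL (PP pp_diff pp_one pp_ne Bas uu uu_ne bas_of overF Cls low_all jk_cong famH_ne')
open Pool.Agent.D0H69.JTA (JK)
open Pool.Agent.D0H69.UC (lower' inf_cls)

/-- the formula -/
def BSG {F : Type} [Field F] [NumberField F] (W : WeierstrassCurve (𝓞 F)) (N : 𝓞 F) (u p : ℕ) : Prop :=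
  Module.rank ℤ (Additive (CRN W N)ˣ) = u ∧
    Module.rank ℤ (Additive (CommRing.Pic (CRN W N))) = p ∧
    ∀ Z : ℂ → ℂ, IsZ (XN W N) Z →
      meromorphicOrderAt Z 1 = (((u : ℤ) - (p : ℤ) : ℤ) : WithTop ℤ) ∧
      meromorphicOrderAt Z 2 = ((-1 : ℤ) : WithTop ℤ) ∧
      ∀ m : ℕ, 3 ≤ m → meromorphicOrderAt Z (m : ℂ) = 0

/-- the result for a surface -/
def Hld {F : Type} [Field F] [NumberField F] (D N : 𝓞 F) : Prop :=
  ((WD D).baseChange (Localization.Away N)).IsElliptic ∧ IsDomain (CRN (WD D) N) ∧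
    (∃ Z : ℂ → ℂ, IsZ (XN (WD D) N) Z) ∧ Finite (CommRing.Pic (CRN (WD D) N)) ∧
    BSG (WD D) N (Units.rank F + {v : HeightOneSpectrum (𝓞 F) | N ∈ v.asIdeal}.ncard) 0

section
variable {F : Type} [Field F] [NumberField F]

/-- the units of the coordinate ring -/
theorem rank_unitsF (W : WeierstrassCurve (𝓞 F)) {N : 𝓞 F} (hN : N ≠ 0) :
    Module.rank ℤ (Additive (CRN W N)ˣ) =
      ((Units.rank F + {v : HeightOneSpectrum (𝓞 F) | N ∈ v.asIdeal}.ncard : ℕ) : Cardinal) := by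
  have hle : Submonoid.powers N ≤ nonZeroDivisors (𝓞 F) :=
    powers_le_nonZeroDivisors_of_noZeroDivisors hN
  have hdom : IsDomain (Localization.Away N) := IsLocalization.isDomain_localization hle
  rw [← Pool.Agent.D0H76.BS.rka F N hN]
  have h4 := Pool.Agent.D0H17.BS.un (Localization.Away N) (W.baseChange (Localization.Away N))
  exact ((MulEquiv.ofBijective _ h4).toAdditive.toIntLinearEquiv.rank_eq).symm

/-- the surface is smooth -/
lemma disc_unitF {D N : 𝓞 F} (hDN : ∃ n : ℕ, 3 * D ∣ N ^ n) :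
    ((WD D).baseChange (Localization.Away N)).IsElliptic := by
  refine ⟨?_⟩
  obtain ⟨n, t, ht⟩ := hDN
  have h1 : IsUnit (algebraMap (𝓞 F) (Localization.Away N) (N ^ n)) := by
    rw [map_pow]
    exact (IsLocalization.Away.algebraMap_isUnit N).pow n
  rw [ht, map_mul, map_mul] at h1
  have h2 := isUnit_of_mul_isUnit_left h1
  have h3 := isUnit_of_mul_isUnit_left h2
  have hD := isUnit_of_mul_isUnit_right h2
  show IsUnit ((WD D).map (algebraMap (𝓞 F) (Localization.Away N))).Δ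
  rw [WeierstrassCurve.map_Δ, WD_disc, map_mul, map_neg, map_pow, map_ofNat]
  rw [map_ofNat] at h3
  have h4 : (27 : Localization.Away N) = 3 ^ 3 := by norm_num
  rw [h4]
  exact ((h3.pow 3).neg).mul (hD.pow 4)

/-- **the surfaces** -/
theorem srf {D N : 𝓞 F} (hD : D ≠ 0) (hN : N ≠ 0) (hDN : ∃ n : ℕ, 3 * D ∣ N ^ n)
    (hfin : Finite (ED (D : F)).toAffine.Point) {Λ : ℂ → ℂ} (hΛ : MeromorphicOn Λ Set.univ)
    (hΛa : AnalyticAt ℂ Λ 1) (hΛ1 : Λ 1 ≠ 0)
    (hΛs : ∀ s : ℂ, 2 < s.re → Λ s = (ED (D : F)).LSeries s) : Hld D N := by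
  have hmem : ∀ v : HeightOneSpectrum (𝓞 F), N ∉ v.asIdeal → 3 * D ∉ v.asIdeal := by
    intro v hv h
    obtain ⟨n, hn⟩ := hDN
    exact hv (v.isPrime.mem_of_pow_mem n (Ideal.mem_of_dvd _ hn h))
  have hL : LcF N (bt D) (fun s v => PP (ED (D : F)) s v) :=
    { nrm := fun v hv => (bt_spec D v (hmem v hv)).1.1
      good := fun v hv s => by
        obtain ⟨h1, h2, h3⟩ := bt_spec D v (hmem v hv)
        exact lf_split h1.1 h2 h3 s
      diff := fun v _ => pp_diff _ v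
      one := fun v _ => pp_one _ v
      ne := fun v _ s hs => pp_ne _ hs v }
  obtain ⟨Z, f1, f2, f3, f4, f5⟩ := zeta_merF hN
    (fun v hv => (bt_spec D v (hmem v hv)).1) hL hΛ (order_of_ne hΛa hΛ1) (fun s hs => by
      rw [hΛs s hs]
      exact (LSeries_hasProd _ hs).2)
  have hΔ : (WD D).Δ ≠ 0 := by
    rw [WD_disc]
    exact mul_ne_zero (by norm_num) (pow_ne_zero 4 hD)
  obtain ⟨hd, hp⟩ := Pool.Agent.D0H76.BS.PC.pica F (WD D) N hN hΔ (by rw [ED_eq]; exact hfin)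
  refine ⟨disc_unitF hDN, hd, ⟨Z, f1, fun s hs => f2 s hs⟩, hp, rank_unitsF _ hN, ?_,
    fun Z' hZ' => ?_⟩
  · rw [rank_fin, Nat.cast_zero]
  · have hu : ∀ s : ℂ, meromorphicOrderAt Z' s = meromorphicOrderAt Z s :=
      order_unique hZ'.1 f1 (σ := 2) fun s hs => by
        rw [(hZ'.2 s hs).2, (f2 s hs).2]
        rfl
    rw [hu, hu, f3, f4, Nat.cast_zero, sub_zero]
    exact ⟨rfl, rfl, fun m hm => by rw [hu, f5 m hm]⟩

end

section
variable {K : Type} [Field K] [NumberField K] [IsCyclotomicExtension {3} ℚ K]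

/-- the surfaces over the Kummer extensions -/
theorem srfJK {F : Type} [Field F] [NumberField F] [Algebra K F] {I : Type} [Fintype I]
    {d : I → K} {x : I → F} (B : Bas d x) {D : 𝓞 K} (hD : FamH D) (h : JK (uu d) D) {N : 𝓞 F}
    (hN : N ≠ 0) (hDN : ∃ n : ℕ, 3 * algebraMap (𝓞 K) (𝓞 F) D ∣ N ^ n) :
    Hld (algebraMap (𝓞 K) (𝓞 F) D) N := by
  obtain ⟨h1, -, Λ, h2, h3, h4, h5⟩ := overF B hD h
  have e : ((algebraMap (𝓞 K) (𝓞 F) D : 𝓞 F) : F) = algebraMap K F (D : K) := rfl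
  have hD0 : algebraMap (𝓞 K) (𝓞 F) D ≠ 0 := by
    intro h0
    have h6 : algebraMap K F (D : K) = 0 := by
      rw [← e, h0]
      exact map_zero _
    exact famH_ne' hD ((map_eq_zero _).1 h6)
  exact srf hD0 hN hDN (by rw [e]; exact h1) h2 h3 h4 (fun s hs => by rw [e]; exact h5 s hs)

/-- **Several fields.** -/
theorem low_bs {ι : Type} [Fintype ι] {F : ι → Type}
    [∀ i, Field (F i)] [∀ i, NumberField (F i)] [∀ i, Algebra K (F i)]
    (hF : ∀ i, ∃ S : Set (F i), (∀ x ∈ S, ∃ w : K, x ^ 3 = algebraMap K (F i) w) ∧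
      IntermediateField.adjoin K S = ⊤)
    {P : 𝓞 K → Prop} (hP : Cls P) {c' : ℝ} (hc' : c' < c9 ^ ∑ i, Module.finrank K (F i)) :
    ∀ᶠ X : ℕ in atTop, c' * ({D : 𝓞 K | Algebra.norm ℤ D ≤ X ∧ FamH D ∧ P D}.ncard : ℝ) ≤
      ({D : 𝓞 K | Algebra.norm ℤ D ≤ X ∧ (FamH D ∧ P D) ∧
        ∀ i, ∀ N : 𝓞 (F i), N ≠ 0 → (∃ n : ℕ, 3 * algebraMap (𝓞 K) (𝓞 (F i)) D ∣ N ^ n) →
          Hld (algebraMap (𝓞 K) (𝓞 (F i)) D) N}.ncard : ℝ) := by
  choose S hS hgen using hF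
  choose r d y B using fun i => bas_of (K := K) (hS i) (hgen i)
  let v : (Σ i, Fin (r i) → ZMod 3) → K := fun p => uu (d p.1) p.2
  have hv : ∀ p, v p ≠ 0 := fun p => uu_ne (B p.1).ne _
  have hcard : Fintype.card (Σ i, Fin (r i) → ZMod 3) = ∑ i, Module.finrank K (F i) := by
    rw [Fintype.card_sigma]
    refine Finset.sum_congr rfl fun i _ => ?_
    rw [(B i).deg]
    simp [ZMod.card]
  obtain ⟨c2, hc1, hc2⟩ := exists_between hc'
  have h1 := low_all (K := K) (v := v) hv hP (x := c2) (by rw [hcard]; exact hc2)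
  refine lower' (P := fun D => FamH D ∧ P D) (Q := JK v) (inf_cls hP) ∅ Set.finite_empty
    (R := fun D => ∀ i, ∀ N : 𝓞 (F i), N ≠ 0 →
      (∃ n : ℕ, 3 * algebraMap (𝓞 K) (𝓞 (F i)) D ∣ N ^ n) → Hld (algebraMap (𝓞 K) (𝓞 (F i)) D) N)
    (fun D hD hJ _ i N hN hDN => ?_) hc1 ?_
  · exact srfJK (B i) hD.1 (jk_cong (v := v) (fun t => ⟨⟨i, t⟩, 1, one_ne_zero, by
        show uu (d i) t = uu (d i) t * 1 ^ 3
        ring⟩) hJ) hN hDN
  · simp only [and_assoc]
    exact h1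

end

end Pool.Agent.D0H69.BS
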