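import Pool.Agent.D0H69.BS.Stm
import Pool.Agent.Q193.Zeta.Dir

/-!
# Project BS: the Euler product over the closed points (statement)
-/

set_option autoImplicit false

open NumberField IsDedekindDomain CategoryTheory AlgebraicGeometry
open scoped Classical

namespace Pool.Agent.D0H69.BS

open Pool.Agent.H921R2.TatePole (nm)

/-- the affine points of the reduction given by `f` -/
abbrev Sol {K : Type} [Field K] [NumberField K] (W : WeierstrassCurve (𝓞 K)) {F : Type} [Field F]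
    (f : 𝓞 K →+* F) : Type :=
  {p : F × F // p.2 ^ 2 + f W.a₁ * p.1 * p.2 + f W.a₃ * p.2 =
    p.1 ^ 3 + f W.a₂ * p.1 ^ 2 + f W.a₄ * p.1 + f W.a₆}

/-- `β` and its conjugate are the eigenvalues of the Frobenius -/
def Frob {K : Type} [Field K] [NumberField K] (W : WeierstrassCurve (𝓞 K))
    (v : HeightOneSpectrum (𝓞 K)) (β : ℂ) : Prop :=
  β * (starRingEnd ℂ) β = nm v ∧ ∀ (F : Type) [Field F] [Finite F] (f : 𝓞 K →+* F) (r : ℕ),
    RingHom.ker f = v.asIdeal → Nat.card F = nm v ^ r →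
      (Nat.card (Sol W f) : ℂ) = Nat.card F - (β ^ r + (starRingEnd ℂ) β ^ r)

/-- the coordinate ring over `𝓞 K [1 / N]` -/
abbrev CRN {K : Type} [Field K] [NumberField K] (W : WeierstrassCurve (𝓞 K)) (N : 𝓞 K) : Type :=
  (W.baseChange (Localization.Away N)).toAffine.CoordinateRing

/-- the affine arithmetic surface -/
noncomputable abbrev XN {K : Type} [Field K] [NumberField K] (W : WeierstrassCurve (𝓞 K)) (N : 𝓞 K) :
    Scheme.{0} := Spec (CommRingCat.of (CRN W N))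

/-- EP: the Euler product over the closed points of `Spec 𝓞 K [1 / N] [x, y] / (W)`.  Plan: (1) for a finite
field `F`: ring homs `CRN W N →+* F` = pairs of a ring hom `f : 𝓞 K →+* F` with `f N ≠ 0` and a point of
`Sol W f` (AdjoinRoot, Polynomial, Localization lifts); the kernel of `f` is a place `v`, `N ∉ v`,
`#F = nm v ^ (e + 1)`; (2) `Pool.Agent.Q193.Zeta.card_pt`, `ptAff`, `card_hom` give
`cf (nm (XN W N)) m = ∑ over the pairs (v, e) with nm v ^ (e + 1) = m of
(nm v ^ (e+1) - β ^ (e+1) - conj β ^ (e+1)) / (e + 1)`; (3) sum over `m` and over `(v, e)` (as in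
`Q193/Zeta/Euler.lean`: `summable_tm`, `hasSum_tm`, `euler`), `-log(1 - z) = ∑ z ^ (e+1) / (e+1)`. -/
def S_EP : Prop := ∀ (K : Type) [Field K] [NumberField K] (W : WeierstrassCurve (𝓞 K)) (N : 𝓞 K),
  N ≠ 0 → ∀ β : HeightOneSpectrum (𝓞 K) → ℂ, (∀ v, N ∉ v.asIdeal → Frob W v (β v)) →
  ∀ s : ℂ, 2 < s.re →
    Multipliable (fun x : {x : XN W N // IsClosed ({x} : Set (XN W N))} =>
      (1 - ((Nat.card ((XN W N).residueField x.1) : ℂ) ^ (-s)))⁻¹) ∧
    HasProd (fun v : {v : HeightOneSpectrum (𝓞 K) // N ∉ v.asIdeal} =>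
      (1 - (nm v.1 : ℂ) ^ (1 - s))⁻¹ * (1 - β v.1 * (nm v.1 : ℂ) ^ (-s)) *
        (1 - (starRingEnd ℂ) (β v.1) * (nm v.1 : ℂ) ^ (-s)))
      (Pool.Agent.Q193.Zeta.zeta (XN W N) s)

end Pool.Agent.D0H69.BS
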