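import Pool.Agent.D0H69.BS.SrfF

/-!
# All the subfields of a Kummer extension at once
-/

set_option autoImplicit false
set_option linter.unusedVariables false
set_option linter.unusedSectionVars false

open NumberField IsDedekindDomain Filter
open scoped Classical

namespace Pool.Agent.D0H69.BS

open Pool.Agent.Y696.CTK (Tri ED)
open Pool.Agent.Y703.XK (c9)
open Pool.Agent.D0H10.KH (FamH ExtH)
open Pool.Agent.D0H69.JTL (Bas uu uu_ne bas_of Cls low_all jk_cong famH_ne')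
open Pool.Agent.D0H69.JTA (JK)
open Pool.Agent.D0H69.UC (lower' inf_cls no_cube)
open Pool.Agent.R432.C (om_K gal3)

section
variable {K : Type} [Field K] [NumberField K]

lemma val_neg : ∀ a : ZMod 3, ∃ e : ℕ, (-a).val + a.val = 3 * e := by
  intro a
  have h : ∀ a : ZMod 3, (-a).val + a.val = 3 * 0 ∨ (-a).val + a.val = 3 * 1 := by decide
  rcases h a with h | h
  · exact ⟨0, h⟩
  · exact ⟨1, h⟩

lemma uu_neg {I : Type} [Fintype I] {d : I → K} (hd : ∀ i, d i ≠ 0) (t : I → ZMod 3) :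
    ∃ z : K, z ≠ 0 ∧ uu d (fun i => -t i) * uu d t = z ^ 3 := by
  choose e he using fun i => val_neg (t i)
  refine ⟨∏ i, d i ^ e i, Finset.prod_ne_zero_iff.2 fun i _ => pow_ne_zero _ (hd i), ?_⟩
  unfold uu
  rw [← Finset.prod_mul_distrib, ← Finset.prod_pow]
  refine Finset.prod_congr rfl fun i _ => ?_
  rw [← pow_add, he i, ← pow_mul, mul_comm]

variable [IsCyclotomicExtension {3} ℚ K]

/-- Kummer theory: the elements of `K` that are cubes in `F` -/
theorem kum {F : Type} [Field F] [NumberField F] [Algebra K F] {I : Type} [Fintype I]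
    {d : I → K} {x : I → F} (hd : ∀ i, d i ≠ 0) (hx : ∀ i, x i ^ 3 = algebraMap K F (d i))
    (hgen : ∀ S : Subfield F, (∀ k : K, algebraMap K F k ∈ S) → (∀ i, x i ∈ S) → S = ⊤)
    {w : K} (hw : w ≠ 0) {v : F} (hv : v ^ 3 = algebraMap K F w) :
    ∃ t : I → ZMod 3, ∃ z : K, z ≠ 0 ∧ w = uu d t * z ^ 3 := by
  obtain ⟨⟨j, hj⟩, -⟩ := Pool.Agent.Y455.CTK.jex K
  have hω := om_K j
  obtain ⟨hfd, hgal⟩ := gal3 (F := F) hω d x hx hgen
  by_contra hcon
  push Not at hcon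
  refine no_cube hω d x hd hx hgen hw (fun t c hc => ?_) v hv
  obtain ⟨z, hz, hzt⟩ := uu_neg hd t
  have hut := uu_ne hd t
  have hc' : c ^ 3 = w * uu d t := hc
  have hc0 : c ≠ 0 := by
    rintro rfl
    rw [zero_pow three_ne_zero] at hc'
    exact mul_ne_zero hw hut hc'.symm
  apply hcon (fun i => -t i) (c / z) (div_ne_zero hc0 hz)
  rw [div_pow, hc', ← hzt]
  have hun := uu_ne hd (fun i => -t i)
  field_simp

/-- the surfaces over a subfield -/
theorem srf_sub {F : Type} [Field F] [NumberField F] [Algebra K F] {I : Type} [Fintype I]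
    {d : I → K} {x : I → F} (hd : ∀ i, d i ≠ 0) (hx : ∀ i, x i ^ 3 = algebraMap K F (d i))
    (hgen : ∀ S : Subfield F, (∀ k : K, algebraMap K F k ∈ S) → (∀ i, x i ∈ S) → S = ⊤)
    {D : 𝓞 K} (hD : FamH D) (h : JK (uu d) D)
    {k : Type} [Field k] [NumberField k] [Algebra K k] (φ : k →ₐ[K] F)
    (hk : ∃ S : Set k, (∀ x ∈ S, ∃ w : K, x ^ 3 = algebraMap K k w) ∧
      IntermediateField.adjoin K S = ⊤) {N : 𝓞 k}
    (hN : N ≠ 0) (hDN : ∃ n : ℕ, 3 * algebraMap (𝓞 K) (𝓞 k) D ∣ N ^ n) :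
    Hld (algebraMap (𝓞 K) (𝓞 k) D) N := by
  obtain ⟨S, hS, hSg⟩ := hk
  obtain ⟨r, d', x', B'⟩ := bas_of (K := K) hS hSg
  refine srfJK B' hD (jk_cong (v := uu d) (fun e' => ?_) h) hN hDN
  refine kum hd hx hgen (uu_ne B'.ne e') (v := φ (∏ i, x' i ^ (e' i).val)) ?_
  rw [← map_pow, ← φ.commutes, ← Finset.prod_pow]
  congr 1
  unfold uu
  rw [map_prod]
  refine Finset.prod_congr rfl fun i _ => ?_
  rw [map_pow, ← B'.cube i, ← pow_mul, ← pow_mul, mul_comm]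

/-- **All the subfields.** -/
theorem low_sub {F : Type} [Field F] [NumberField F] [Algebra K F]
    (hF : ∃ S : Set F, (∀ x ∈ S, ∃ w : K, x ^ 3 = algebraMap K F w) ∧
      IntermediateField.adjoin K S = ⊤)
    {P : 𝓞 K → Prop} (hP : Cls P) {c' : ℝ} (hc' : c' < c9 ^ Module.finrank K F) {R : 𝓞 K → Prop}
    (hR : ∀ D, FamH D → (∀ (k : Type) [Field k] [NumberField k] [Algebra K k], (k →ₐ[K] F) →
      (∃ S : Set k, (∀ x ∈ S, ∃ w : K, x ^ 3 = algebraMap K k w) ∧ IntermediateField.adjoin K S = ⊤) →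
      ∀ N : 𝓞 k, N ≠ 0 → (∃ n : ℕ, 3 * algebraMap (𝓞 K) (𝓞 k) D ∣ N ^ n) →
        Hld (algebraMap (𝓞 K) (𝓞 k) D) N) → R D) :
    ∀ᶠ X : ℕ in atTop, c' * ({D : 𝓞 K | Algebra.norm ℤ D ≤ X ∧ FamH D ∧ P D}.ncard : ℝ) ≤
      ({D : 𝓞 K | Algebra.norm ℤ D ≤ X ∧ (FamH D ∧ P D) ∧ R D}.ncard : ℝ) := by
  obtain ⟨S, hS, hgen⟩ := hF
  obtain ⟨r, d, y, B⟩ := bas_of (K := K) hS hgen
  have hcard : Fintype.card (Fin r → ZMod 3) = Module.finrank K F := by
    rw [B.deg]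
    simp [ZMod.card]
  obtain ⟨c2, hc1, hc2⟩ := exists_between hc'
  have h1 := low_all (K := K) (v := uu d) (uu_ne B.ne) hP (x := c2) (by rw [hcard]; exact hc2)
  refine lower' (P := fun D => FamH D ∧ P D) (Q := JK (uu d)) (inf_cls hP) ∅ Set.finite_empty
    (R := R) (fun D hD hJ _ => hR D hD.1 fun k _ _ _ φ hk N hN hDN => ?_) hc1 ?_
  · exact srf_sub B.ne B.cube B.gen hD.1 hJ φ hk hN hDN
  · simp only [and_assoc]
    exact h1

end

end Pool.Agent.D0H69.BS
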