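import Pool.Agent.D0H69.BS.Cnt

/-!
# Project BS: the double sums
-/

set_option autoImplicit false
set_option linter.unusedSectionVars false

open Complex

namespace Pool.Agent.D0H69.BS

open Pool.Agent.Q193.Zeta (cf Fib tm tm_eq norm_tm cf_nonneg cf_zero)

section euler

variable {ι : Type} {N : ι → ℕ} (hN : ∀ i, 1 < N i) (hfin : ∀ m, Finite (Fib N m))

include hN hfin

lemma summable_tm' {s : ℂ} (hsum : LSeriesSummable (fun m => (cf N m : ℂ)) s) :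
    Summable (tm N s) := by
  rw [← summable_norm_iff]
  rw [← (Equiv.sigmaFiberEquiv fun j : ι × ℕ => N j.1 ^ (j.2 + 1)).summable_iff]
  refine (summable_sigma_of_nonneg (fun _ => norm_nonneg _)).mpr ⟨fun m => ?_, ?_⟩
  · have := hfin m
    exact Summable.of_finite
  · have h1 := hsum.norm
    refine (Summable.congr h1 fun m => Eq.symm ?_)
    have h2 : ∀ j : Fib N m, ‖tm N s j.1‖ = ((j.1.2 : ℝ) + 1)⁻¹ * (m : ℝ) ^ (-s.re) := by
      intro j
      rw [norm_tm hN, j.2]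
    change ∑' j : Fib N m, ‖tm N s j.1‖ = _
    rw [tsum_congr h2, tsum_mul_right]
    change cf N m * _ = _
    rw [LSeries.norm_term_eq]
    split_ifs with h3
    · subst h3
      rw [cf_zero hN, zero_mul]
    · rw [Complex.norm_real, Real.norm_of_nonneg (cf_nonneg N m), Real.rpow_neg (by positivity),
        div_eq_mul_inv]

lemma hasSum_tm' {s : ℂ} (hsum : LSeriesSummable (fun m => (cf N m : ℂ)) s) :
    HasSum (tm N s) (LSeries (fun m => (cf N m : ℂ)) s) := by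
  have h1 := (summable_tm' hN hfin hsum)
  have h2 := h1.hasSum
  rw [← (Equiv.sigmaFiberEquiv fun j : ι × ℕ => N j.1 ^ (j.2 + 1)).hasSum_iff] at h2
  have h3 : HasSum (fun m => LSeries.term (fun m => (cf N m : ℂ)) s m) (∑' b, tm N s b) := by
    refine h2.sigma fun m => ?_
    have := hfin m
    have h4 : ∀ j : Fib N m, tm N s j.1 = (((j.1.2 : ℝ) + 1)⁻¹ : ℝ) * (m : ℂ) ^ (-s) := by
      intro j
      rw [tm_eq, j.2]
    have h5 : HasSum (fun j : Fib N m => (((((j.1.2 : ℝ) + 1)⁻¹ : ℝ)) : ℂ) * (m : ℂ) ^ (-s))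
        ((cf N m : ℂ) * (m : ℂ) ^ (-s)) := by
      have h6 : Summable fun j : Fib N m => ((j.1.2 : ℝ) + 1)⁻¹ := Summable.of_finite
      exact (Complex.hasSum_ofReal.mpr h6.hasSum).mul_right _
    have h7 : LSeries.term (fun m => (cf N m : ℂ)) s m = (cf N m : ℂ) * (m : ℂ) ^ (-s) := by
      rw [LSeries.term_def]
      split_ifs with h8
      · subst h8
        rw [cf_zero hN]
        simp
      · rw [Complex.cpow_neg, div_eq_mul_inv]
    rw [h7]
    exact h5.congr_fun h4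
  have h4 : LSeries (fun m => (cf N m : ℂ)) s = ∑' b, tm N s b := h3.tsum_eq
  rw [h4]
  exact h1.hasSum

/-- The Euler product is the exponential of a Dirichlet series. -/
theorem euler' {s : ℂ} (hsum : LSeriesSummable (fun m => (cf N m : ℂ)) s) (hs0 : 0 < s.re) :
    HasProd (fun i => (1 - (N i : ℂ) ^ (-s))⁻¹)
      (Complex.exp (LSeries (fun m => (cf N m : ℂ)) s)) := by
  have h1 := hasSum_tm' hN hfin hsum
  have hlt : ∀ i, ‖(N i : ℂ) ^ (-s)‖ < 1 := by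
    intro i
    rw [Complex.norm_natCast_cpow_of_pos (zero_lt_one.trans (hN i)), Complex.neg_re]
    exact Real.rpow_lt_one_of_one_lt_of_neg (by exact_mod_cast hN i) (by linarith)
  have h4 : ∀ i, HasSum (fun k => tm N s (i, k)) (-Complex.log (1 - (N i : ℂ) ^ (-s))) := by
    intro i
    have h := Complex.hasSum_taylorSeries_neg_log' (hlt i)
    simp only [tm]
    exact h
  have h2 : HasSum (fun i => -Complex.log (1 - (N i : ℂ) ^ (-s)))
      (LSeries (fun m => (cf N m : ℂ)) s) := HasSum.prod_fiberwise h1 h4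
  have h6 := HasSum.cexp h2
  have h7 : (fun i => (1 - (N i : ℂ) ^ (-s))⁻¹) =
      Complex.exp ∘ fun i => -Complex.log (1 - (N i : ℂ) ^ (-s)) := by
    funext i
    have h5 : (1 : ℂ) - (N i : ℂ) ^ (-s) ≠ 0 := by
      intro h6
      have h7 := hlt i
      rw [← sub_eq_zero.mp h6, norm_one] at h7
      exact lt_irrefl _ h7
    rw [Function.comp_apply, Complex.exp_neg, Complex.exp_log h5]
  rw [h7]
  exact h6

end euler

section weights

variable {ι : Type} {q : ι → ℕ} (hq : ∀ i, 1 < q i) {β : ι → ℂ}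
  (hβ : ∀ i, β i * (starRingEnd ℂ) (β i) = q i)

/-- the terms of the double series of the curve -/
noncomputable def tw (q : ι → ℕ) (β : ι → ℂ) (s : ℂ) (j : ι × ℕ) : ℂ :=
  ((q j.1 : ℂ) ^ (j.2 + 1) - (β j.1 ^ (j.2 + 1) + (starRingEnd ℂ) (β j.1) ^ (j.2 + 1))) *
    ((q j.1 : ℂ) ^ (-s)) ^ (j.2 + 1) / ((j.2 : ℂ) + 1)

include hq hβ

lemma norm_beta (i : ι) : ‖β i‖ ≤ q i := by
  have h1 : ‖β i‖ ^ 2 = q i := by
    have h2 := hβ i
    rw [Complex.mul_conj, Complex.normSq_eq_norm_sq] at h2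
    exact_mod_cast h2
  have h2 : (1 : ℝ) < q i := by exact_mod_cast hq i
  have h3 : 1 ≤ ‖β i‖ := by
    by_contra h
    push Not at h
    have : ‖β i‖ ^ 2 < 1 := pow_lt_one₀ (norm_nonneg _) h two_ne_zero
    rw [h1] at this
    linarith
  nlinarith

lemma norm_beta' (i : ι) : ‖β i‖ ^ 2 = q i := by
  have h2 := hβ i
  rw [Complex.mul_conj, Complex.normSq_eq_norm_sq] at h2
  exact_mod_cast h2

lemma norm_qs {i : ι} {s : ℂ} : ‖(q i : ℂ) ^ (-s)‖ = (q i : ℝ) ^ (-s.re) := by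
  rw [Complex.norm_natCast_cpow_of_pos (zero_lt_one.trans (hq i)), Complex.neg_re]

lemma norm_qqs {i : ι} {s : ℂ} : (q i : ℝ) * ‖(q i : ℂ) ^ (-s)‖ = (q i : ℝ) ^ (-(s.re - 1)) := by
  rw [norm_qs hq hβ]
  have h0 : (0 : ℝ) < q i := by exact_mod_cast zero_lt_one.trans (hq i)
  rw [neg_sub, sub_eq_add_neg, Real.rpow_add h0, Real.rpow_one]

lemma small {i : ι} {s : ℂ} (hs : 2 < s.re) : (q i : ℝ) * ‖(q i : ℂ) ^ (-s)‖ < 1 / 2 := by
  rw [norm_qqs hq hβ]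
  have h0 : (2 : ℝ) ≤ q i := by exact_mod_cast hq i
  calc (q i : ℝ) ^ (-(s.re - 1)) ≤ (2 : ℝ) ^ (-(s.re - 1)) :=
        Real.rpow_le_rpow_of_nonpos (by norm_num) h0 (by linarith)
    _ < (2 : ℝ) ^ (-1 : ℝ) := Real.rpow_lt_rpow_of_exponent_lt (by norm_num) (by linarith)
    _ = 1 / 2 := by rw [Real.rpow_neg_one]; norm_num

lemma norm_tw {s : ℂ} (j : ι × ℕ) :
    ‖tw q β s j‖ ≤ 3 * ((q j.1 : ℝ) * ‖(q j.1 : ℂ) ^ (-s)‖) ^ (j.2 + 1) := by
  obtain ⟨i, e⟩ := j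
  have h1 := norm_beta hq hβ i
  have h4 : ‖(starRingEnd ℂ) (β i)‖ = ‖β i‖ := RCLike.norm_conj _
  have h2 : ‖((q i : ℂ) ^ (e + 1) - (β i ^ (e + 1) + (starRingEnd ℂ) (β i) ^ (e + 1)))‖ ≤
      3 * (q i : ℝ) ^ (e + 1) := by
    have h5 : ‖β i ^ (e + 1)‖ ≤ (q i : ℝ) ^ (e + 1) := by
      rw [norm_pow]
      exact pow_le_pow_left₀ (norm_nonneg _) h1 _
    have h6 : ‖(starRingEnd ℂ) (β i) ^ (e + 1)‖ ≤ (q i : ℝ) ^ (e + 1) := by
      rw [norm_pow, h4]
      exact pow_le_pow_left₀ (norm_nonneg _) h1 _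
    have h7 : ‖(q i : ℂ) ^ (e + 1)‖ = (q i : ℝ) ^ (e + 1) := by
      rw [norm_pow, Complex.norm_natCast]
    calc _ ≤ ‖(q i : ℂ) ^ (e + 1)‖ + (‖β i ^ (e + 1)‖ + ‖(starRingEnd ℂ) (β i) ^ (e + 1)‖) :=
          (norm_sub_le _ _).trans (by gcongr; exact norm_add_le _ _)
      _ ≤ (q i : ℝ) ^ (e + 1) + ((q i : ℝ) ^ (e + 1) + (q i : ℝ) ^ (e + 1)) := by
          rw [h7]; gcongr
      _ = _ := by ring
  have h8 : ‖((e : ℂ) + 1)‖ = (e : ℝ) + 1 := by
    have : ((e : ℂ) + 1) = ((e + 1 : ℕ) : ℂ) := by push_cast; rfl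
    rw [this, Complex.norm_natCast]
    push_cast
    rfl
  unfold tw
  rw [norm_div, norm_mul, norm_pow, h8, mul_pow]
  have h9 : (1 : ℝ) ≤ (e : ℝ) + 1 := by
    have : (0 : ℝ) ≤ e := Nat.cast_nonneg e
    linarith
  calc _ ≤ ‖((q i : ℂ) ^ (e + 1) - (β i ^ (e + 1) + (starRingEnd ℂ) (β i) ^ (e + 1)))‖ *
        ‖(q i : ℂ) ^ (-s)‖ ^ (e + 1) := div_le_self (by positivity) h9
    _ ≤ (3 * (q i : ℝ) ^ (e + 1)) * ‖(q i : ℂ) ^ (-s)‖ ^ (e + 1) := by gcongr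
    _ = _ := by ring

lemma summable_tw {s : ℂ} (hs : 2 < s.re)
    (hsum : Summable fun i : ι => (q i : ℝ) ^ (-(s.re - 1))) : Summable (tw q β s) := by
  refine Summable.of_norm_bounded (g := fun j : ι × ℕ =>
    3 * ((q j.1 : ℝ) * ‖(q j.1 : ℂ) ^ (-s)‖) ^ (j.2 + 1)) ?_ (norm_tw hq hβ)
  refine Summable.mul_left 3 ?_
  have hpos : ∀ i : ι, 0 ≤ (q i : ℝ) * ‖(q i : ℂ) ^ (-s)‖ := fun i => by positivity
  have hgeo : ∀ i : ι, HasSum (fun e : ℕ => ((q i : ℝ) * ‖(q i : ℂ) ^ (-s)‖) ^ (e + 1))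
      (((q i : ℝ) * ‖(q i : ℂ) ^ (-s)‖) * (1 - (q i : ℝ) * ‖(q i : ℂ) ^ (-s)‖)⁻¹) := by
    intro i
    have h1 := (hasSum_geometric_of_lt_one (hpos i)
      ((small hq hβ hs).trans (by norm_num))).mul_left ((q i : ℝ) * ‖(q i : ℂ) ^ (-s)‖)
    refine h1.congr_fun fun e => ?_
    rw [pow_succ']
  refine (summable_prod_of_nonneg (fun j => pow_nonneg (hpos j.1) _)).2 ⟨fun i => (hgeo i).summable,
    ?_⟩
  have h2 : ∀ i : ι, ∑' e : ℕ, ((q i : ℝ) * ‖(q i : ℂ) ^ (-s)‖) ^ (e + 1) ≤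
      2 * (q i : ℝ) ^ (-(s.re - 1)) := by
    intro i
    rw [(hgeo i).tsum_eq, ← norm_qqs hq hβ, mul_comm 2]
    have h3 := small hq hβ (i := i) hs
    refine mul_le_mul_of_nonneg_left ?_ (hpos i)
    rw [inv_le_comm₀ (by linarith) (by norm_num)]
    linarith
  refine Summable.of_nonneg_of_le (fun i => tsum_nonneg fun e => pow_nonneg (hpos i) _) h2
    (hsum.mul_left 2)

/-- the sum over the exponents -/
lemma hasSum_e {s : ℂ} (hs : 2 < s.re) (i : ι) : HasSum (fun e => tw q β s (i, e))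
    (-Complex.log (1 - (q i : ℂ) * (q i : ℂ) ^ (-s)) -
      (-Complex.log (1 - β i * (q i : ℂ) ^ (-s)) +
        -Complex.log (1 - (starRingEnd ℂ) (β i) * (q i : ℂ) ^ (-s)))) := by
  have h1 := norm_beta hq hβ i
  have h4 : ‖(starRingEnd ℂ) (β i)‖ = ‖β i‖ := RCLike.norm_conj _
  have h3 := small hq hβ (i := i) hs
  have k1 : ‖(q i : ℂ) * (q i : ℂ) ^ (-s)‖ < 1 := by
    rw [norm_mul, Complex.norm_natCast]
    linarith
  have k2 : ‖β i * (q i : ℂ) ^ (-s)‖ < 1 := by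
    rw [norm_mul]
    refine lt_of_le_of_lt (mul_le_mul_of_nonneg_right h1 (norm_nonneg _)) (by linarith)
  have k3 : ‖(starRingEnd ℂ) (β i) * (q i : ℂ) ^ (-s)‖ < 1 := by
    rw [norm_mul, h4, ← norm_mul]
    exact k2
  refine ((Complex.hasSum_taylorSeries_neg_log' k1).sub
    ((Complex.hasSum_taylorSeries_neg_log' k2).add
      (Complex.hasSum_taylorSeries_neg_log' k3))).congr_fun fun e => ?_
  unfold tw
  simp only [mul_pow]
  ring

/-- the product over the places -/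
theorem prod_tw {s : ℂ} (hs : 2 < s.re)
    (hsum : Summable fun i : ι => (q i : ℝ) ^ (-(s.re - 1))) :
    HasProd (fun i => (1 - (q i : ℂ) ^ (1 - s))⁻¹ * (1 - β i * (q i : ℂ) ^ (-s)) *
      (1 - (starRingEnd ℂ) (β i) * (q i : ℂ) ^ (-s))) (Complex.exp (∑' j, tw q β s j)) := by
  have h1 := (summable_tw hq hβ hs hsum).hasSum
  have h2 := HasSum.prod_fiberwise h1 (hasSum_e hq hβ hs)
  have h6 := HasSum.cexp h2
  refine h6.congr_fun fun i => ?_
  have h1 := norm_beta hq hβ i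
  have h4 : ‖(starRingEnd ℂ) (β i)‖ = ‖β i‖ := RCLike.norm_conj _
  have h3 := small hq hβ (i := i) hs
  have hne : ∀ z : ℂ, ‖z‖ < 1 → (1 : ℂ) - z ≠ 0 := by
    intro z hz h
    rw [← sub_eq_zero.mp h, norm_one] at hz
    exact lt_irrefl _ hz
  have k1 : ‖(q i : ℂ) * (q i : ℂ) ^ (-s)‖ < 1 := by
    rw [norm_mul, Complex.norm_natCast]
    linarith
  have k2 : ‖β i * (q i : ℂ) ^ (-s)‖ < 1 := by
    rw [norm_mul]
    refine lt_of_le_of_lt (mul_le_mul_of_nonneg_right h1 (norm_nonneg _)) (by linarith)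
  have k3 : ‖(starRingEnd ℂ) (β i) * (q i : ℂ) ^ (-s)‖ < 1 := by
    rw [norm_mul, h4, ← norm_mul]
    exact k2
  have h0 : (q i : ℂ) ≠ 0 := by
    have := hq i
    exact_mod_cast (by omega : q i ≠ 0)
  have e1 : (q i : ℂ) ^ (1 - s) = (q i : ℂ) * (q i : ℂ) ^ (-s) := by
    rw [sub_eq_add_neg, Complex.cpow_add _ _ h0, Complex.cpow_one]
  rw [Function.comp_apply, Complex.exp_sub, Complex.exp_add, Complex.exp_neg, Complex.exp_neg,
    Complex.exp_neg, Complex.exp_log (hne _ k1), Complex.exp_log (hne _ k2),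
    Complex.exp_log (hne _ k3), e1]
  have m2 := hne _ k2
  have m3 := hne _ k3
  field_simp

end weights

end Pool.Agent.D0H69.BS
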